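import Pool.Agent.P8H64.OO.Num

/-!
# Ranks of the groups of cycles modulo numerical equivalence
-/

set_option autoImplicit false

open CategoryTheory AlgebraicGeometry

universe u v w

namespace Pool.Agent.P8H64.OO

open Pool.Agent.H914 Pool.Agent.H914.VarClass Pool.Agent.H914.VarClass.Obj Pool.Agent.W492.BB
  Pool.Agent.W550.Corr Pool.Agent.TH133 Pool.Agent.TH829.Prime Pool.Agent.TH829.Kim

variable {k : Type u} [Field k] {𝒱 : VarClass k} {C : TheoryData.{u, v, 0} 𝒱 ℚ}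

/-- The map induced on the cycles modulo numerical equivalence. -/
noncomputable def indN {X Y : 𝒱.Obj} {i j : ℤ} (φ : C.A X →ₗ[ℚ] C.A Y)
    (h1 : ∀ x ∈ C.gr X i, φ x ∈ C.gr Y j) (h3 : ∀ x ∈ numFam C X i, φ x ∈ numFam C Y j) :
    NumSpace C X i →ₗ[ℚ] NumSpace C Y j :=
  Submodule.mapQ _ _ (φ.restrict h1) (fun x hx => h3 x.1 hx)

lemma indN_cls {X Y : 𝒱.Obj} {i j : ℤ} (φ : C.A X →ₗ[ℚ] C.A Y)
    (h1 : ∀ x ∈ C.gr X i, φ x ∈ C.gr Y j) (h3 : ∀ x ∈ numFam C X i, φ x ∈ numFam C Y j)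
    (x : C.gr X i) : indN φ h1 h3 (cls x) = cls ⟨φ x.1, h1 _ x.2⟩ := rfl

lemma rho_eq_of {X Y : 𝒱.Obj} {i j : ℤ} (φ : C.A X →ₗ[ℚ] C.A Y) (ψ : C.A Y →ₗ[ℚ] C.A X)
    (h1 : ∀ x ∈ C.gr X i, φ x ∈ C.gr Y j) (h2 : ∀ y ∈ C.gr Y j, ψ y ∈ C.gr X i)
    (h3 : ∀ x ∈ numFam C X i, φ x ∈ numFam C Y j) (h4 : ∀ y ∈ numFam C Y j, ψ y ∈ numFam C X i)
    (h5 : ∀ x ∈ C.gr X i, ψ (φ x) - x ∈ numFam C X i)
    (h6 : ∀ y ∈ C.gr Y j, φ (ψ y) - y ∈ numFam C Y j) : rho C X i = rho C Y j := by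
  refine LinearEquiv.finrank_eq (LinearEquiv.ofLinearMap (indN φ h1 h3) (indN ψ h2 h4) ?_ ?_)
  · apply LinearMap.ext
    intro y
    obtain ⟨y, rfl⟩ := cls_surj y
    rw [LinearMap.comp_apply, indN_cls, indN_cls, LinearMap.id_apply]
    exact cls_eq.2 (h6 _ y.2)
  · apply LinearMap.ext
    intro x
    obtain ⟨x, rfl⟩ := cls_surj x
    rw [LinearMap.comp_apply, indN_cls, indN_cls, LinearMap.id_apply]
    exact cls_eq.2 (h5 _ x.2)

variable [hC : IsChowProj C] [hN : NZ C]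

lemma rho_swap (X Y : 𝒱.Obj) (i : ℤ) : rho C (X.prod Y) i = rho C (Y.prod X) i := by
  have hz : ∀ (W : 𝒱.Obj) (x : C.A W), x - x ∈ numFam C W i := fun W x => by
    rw [sub_self]
    exact Submodule.zero_mem _
  refine rho_eq_of (C.pull (sw Y X)).toLinearMap (C.pull (sw X Y)).toLinearMap
    (fun x hx => C.pull_mem _ hx) (fun x hx => C.pull_mem _ hx)
    (fun x hx => num_adq.pull_mem _ hx) (fun x hx => num_adq.pull_mem _ hx) ?_ ?_
  · intro x _
    have e : (C.pull (sw X Y)).toLinearMap ((C.pull (sw Y X)).toLinearMap x) = x := by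
      change C.pull (sw X Y) (C.pull (sw Y X) x) = x
      rw [← C.pull_comp, sw_sw, C.pull_id]
    rw [e]
    exact hz _ x
  · intro x _
    have e : (C.pull (sw Y X)).toLinearMap ((C.pull (sw X Y)).toLinearMap x) = x := by
      change C.pull (sw Y X) (C.pull (sw X Y) x) = x
      rw [← C.pull_comp, sw_sw, C.pull_id]
    rw [e]
    exact hz _ x

lemma act_num_right {X Y : 𝒱.Obj} {i : ℤ} {Γ : C.A (X.prod Y)} (hΓ : Γ ∈ C.gr (X.prod Y) X.dim)
    {x : C.A X} (hx : x ∈ numFam C X i) : C.act Γ x ∈ numFam C Y i := by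
  rw [TheoryData.act_apply]
  have h := num_adq.push_mem (snd X Y) (num_adq.mul_mem' hΓ (num_adq.pull_mem (fst X Y) hx))
  refine num_adq.congr ?_ h
  rw [dim_prod]
  push_cast
  ring

lemma act_num_left {X Y : 𝒱.Obj} {i : ℤ} {Γ : C.A (X.prod Y)}
    (hΓ : Γ ∈ numFam C (X.prod Y) X.dim) {x : C.A X} (hx : x ∈ C.gr X i) :
    C.act Γ x ∈ numFam C Y i := by
  rw [TheoryData.act_apply]
  have h := num_adq.push_mem (snd X Y) (num_adq.mul_mem hΓ (C.pull_mem (fst X Y) hx))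
  refine num_adq.congr ?_ h
  rw [dim_prod]
  push_cast
  ring

/-- Varieties with isomorphic numerical motives have the same ranks of cycle groups. -/
theorem rho_eq {X Y : 𝒱.Obj} (h : NumIso C X Y) (i : ℤ) : rho C X i = rho C Y i := by
  obtain ⟨Z, Z', hZ, hZ', h1, h2⟩ := h
  have key : ∀ {X Y : 𝒱.Obj} {Z : C.A (X.prod Y)} {Z' : C.A (Y.prod X)} (_ : C.Deg X.dim Z)
      (_ : C.comp Z Z' - dg C X ∈ numFam C (X.prod X) X.dim) (x : C.A X) (_ : x ∈ C.gr X i),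
      C.actL Z' (C.actL Z x) - x ∈ numFam C X i := by
    intro X Y Z Z' hZ h1 x hx
    have e : C.actL Z' (C.actL Z x) - x = C.act (C.comp Z Z' - dg C X) x := by
      rw [C.act_sub, C.act_comp, act_dg]
      rfl
    rw [e]
    exact act_num_left h1 hx
  refine rho_eq_of (C.actL Z) (C.actL Z') ?_ ?_ (fun x hx => act_num_right hZ hx)
    (fun x hx => act_num_right hZ' hx) (key hZ h1) (key hZ' h2)
  · intro x hx
    have := act_mem' C (e := 0) (by rwa [add_zero]) hx (Γ := Z)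
    rwa [add_zero] at this
  · intro x hx
    have := act_mem' C (e := 0) (by rwa [add_zero]) hx (Γ := Z')
    rwa [add_zero] at this

end Pool.Agent.P8H64.OO
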