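import Pool.Agent.P8H64.OO.AsyStm

/-!
# Project AR, package CELL: ranks of the product with a rational surface
-/

set_option autoImplicit false
set_option linter.unusedSectionVars false

open CategoryTheory AlgebraicGeometry

universe u v w

namespace Pool.Agent.P8H64.OO

open Pool.Agent.H914 Pool.Agent.H914.VarClass Pool.Agent.H914.VarClass.Obj Pool.Agent.W492.BB
  Pool.Agent.W550.Corr Pool.Agent.TH133 Pool.Agent.TH829.Prime Pool.Agent.TH829.Kim

variable {k : Type u} [Field k] {𝒱 : VarClass k} {C : TheoryData.{u, v, 0} 𝒱 ℚ}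

/-- `z ↦ p_* (z · q^* y)` -/
noncomputable def pA (X : 𝒱.Obj) {P : 𝒱.Obj} (y : C.A P) : C.A (X.prod P) →ₗ[ℚ] C.A X :=
  C.push (fst X P) ∘ₗ LinearMap.mulRight ℚ (C.pull (snd X P) y)

lemma pA_apply {X P : 𝒱.Obj} (y : C.A P) (z : C.A (X.prod P)) :
    pA X y z = C.push (fst X P) (z * C.pull (snd X P) y) := rfl

/-- `u ↦ u × c` -/
noncomputable def eA (X : 𝒱.Obj) {P : 𝒱.Obj} (c : C.A P) : C.A X →ₗ[ℚ] C.A (X.prod P) :=
  LinearMap.mulRight ℚ (C.pull (snd X P) c) ∘ₗ (C.pull (fst X P)).toLinearMap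

lemma eA_apply {X P : 𝒱.Obj} (c : C.A P) (u : C.A X) : eA X c u = C.ext u c := rfl

variable [hC : IsChowProj C] {X P : 𝒱.Obj}

lemma comp_ext_right (z : C.A (X.prod P)) (y c : C.A P) :
    C.comp z (C.ext y c) = eA X c (pA X y z) := by
  have e1 : t23 X P P ≫ fst P P = fst (X.prod P) P ≫ snd X P := t23_fst
  have e3 : t23 X P P ≫ snd P P = t13 X P P ≫ snd X P := by rw [t23_snd, t13_snd]
  have h2 : C.pull (t23 X P P) (C.ext y c) * C.pull (fst (X.prod P) P) z =
      C.pull (fst (X.prod P) P) (z * C.pull (snd X P) y) * C.pull (t13 X P P) (C.pull (snd X P) c) := by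
    rw [TheoryData.ext, map_mul, map_mul, ← C.pull_comp (t23 X P P), ← C.pull_comp (t23 X P P), e1, e3,
      ← C.pull_comp (t13 X P P), C.pull_comp (fst (X.prod P) P) (snd X P), mul_assoc,
      ch_comm C (C.pull (t13 X P P ≫ snd X P) c), ← mul_assoc,
      ch_comm C (C.pull (fst (X.prod P) P) (C.pull (snd X P) y))]
  rw [TheoryData.comp, h2, C.proj_right, eA_apply, pA_apply, TheoryData.ext, C.base_fst]
  rfl

lemma pA_ext (y c : C.A P) (u : C.A X) :
    pA X y (eA X c u) = u * C.push (fst X P) (C.pull (snd X P) (c * y)) := by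
  rw [pA_apply, eA_apply, TheoryData.ext, mul_assoc, ← map_mul (C.pull (snd X P)), C.proj_left]

lemma push_deg {m : C.A P} {q : ℚ} (h : HasDegree C m q) (u : C.A X) :
    u * C.push (fst X P) (C.pull (snd X P) m) = q • u := by
  rw [(h X).2, mul_smul_comm, mul_one]

lemma push_zero {m : C.A P} {i : ℤ} (hm : m ∈ C.gr P i) (hi : i ≠ P.dim) (u : C.A X) :
    u * C.push (fst X P) (C.pull (snd X P) m) = 0 := by
  have h1 : C.push (fst X P) (C.pull (snd X P) m) = 0 := by
    rcases lt_or_gt_of_ne hi with h | h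
    · have h2 := C.push_mem (fst X P) (C.pull_mem (snd X P) hm)
      rw [C.gr_neg X _ (by rw [dim_prod]; push_cast; omega)] at h2
      exact (Submodule.mem_bot _).1 h2
    · rw [hC.gr_top P i _ hm h, map_zero, map_zero]
  rw [h1, mul_zero]

lemma pA_mem {y : C.A P} {i j l : ℤ} (hy : y ∈ C.gr P j) (hl : l = i + j - P.dim) :
    ∀ z ∈ C.gr (X.prod P) i, pA X y z ∈ C.gr X l := by
  intro z hz
  have h := C.push_mem (fst X P) (C.mul_mem hz (C.pull_mem (snd X P) hy))
  have e : i + j + 1 * ((X.dim : ℤ) - ((X.prod P).dim : ℤ)) = l := by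
    rw [dim_prod, hl]
    push_cast
    ring
  rw [e] at h
  exact h

lemma eA_mem {c : C.A P} {i j l : ℤ} (hc : c ∈ C.gr P j) (hl : l = i + j) :
    ∀ u ∈ C.gr X i, eA X c u ∈ C.gr (X.prod P) l := by
  intro u hu
  have h := C.mul_mem (C.pull_mem (fst X P) hu) (C.pull_mem (snd X P) hc)
  rw [← hl] at h
  exact h

variable [hN : NZ C]

lemma pA_num {y : C.A P} {i j l : ℤ} (hy : y ∈ C.gr P j) (hl : l = i + j - P.dim) :
    ∀ z ∈ numFam C (X.prod P) i, pA X y z ∈ numFam C X l := by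
  intro z hz
  have h := num_adq.push_mem (fst X P) (num_adq.mul_mem hz (C.pull_mem (snd X P) hy))
  refine num_adq.congr ?_ h
  rw [dim_prod, hl]
  push_cast
  ring

lemma eA_num {c : C.A P} {i j l : ℤ} (hc : c ∈ C.gr P j) (hl : l = i + j) :
    ∀ u ∈ numFam C X i, eA X c u ∈ numFam C (X.prod P) l := by
  intro u hu
  have h := num_adq.mul_mem (num_adq.pull_mem (fst X P) hu) (C.pull_mem (snd X P) hc)
  refine num_adq.congr ?_ h
  exact hl.symm

omit hN in
lemma ind_deg {y c : C.A P} {q : ℚ} (h : HasDegree C (c * y) q) {i j : ℤ}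
    (h1 : ∀ x ∈ C.gr X i, eA X c x ∈ C.gr (X.prod P) j)
    (h2 : ∀ x ∈ numFam C X i, eA X c x ∈ numFam C (X.prod P) j)
    (h3 : ∀ x ∈ C.gr (X.prod P) j, pA X y x ∈ C.gr X i)
    (h4 : ∀ x ∈ numFam C (X.prod P) j, pA X y x ∈ numFam C X i) (x : NumSpace C X i) :
    indN (pA X y) h3 h4 (indN (eA X c) h1 h2 x) = q • x := by
  obtain ⟨x, rfl⟩ := cls_surj x
  rw [indN_cls, indN_cls, ← cls_smul]
  refine cls_eq.2 ?_
  have e : pA X y (eA X c x.1) - ((q • x : C.gr X i) : C.A X) = 0 := by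
    rw [pA_ext, push_deg h, Submodule.coe_smul, sub_self]
  rw [e]
  exact Submodule.zero_mem _

omit hN in
lemma ind_zero {y c : C.A P} {m : ℤ} (h : c * y ∈ C.gr P m) (hm : m ≠ P.dim) {i j l : ℤ}
    (h1 : ∀ x ∈ C.gr X i, eA X c x ∈ C.gr (X.prod P) j)
    (h2 : ∀ x ∈ numFam C X i, eA X c x ∈ numFam C (X.prod P) j)
    (h3 : ∀ x ∈ C.gr (X.prod P) j, pA X y x ∈ C.gr X l)
    (h4 : ∀ x ∈ numFam C (X.prod P) j, pA X y x ∈ numFam C X l) (x : NumSpace C X i) :
    indN (pA X y) h3 h4 (indN (eA X c) h1 h2 x) = 0 := by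
  obtain ⟨x, rfl⟩ := cls_surj x
  rw [indN_cls, indN_cls, show (0 : NumSpace C X l) = cls 0 from rfl]
  refine cls_eq.2 ?_
  have e : pA X y (eA X c x.1) - ((0 : C.gr X l) : C.A X) = 0 := by
    rw [pA_ext, push_zero h hm, Submodule.coe_zero, sub_self]
  rw [e]
  exact Submodule.zero_mem _

omit hN in
lemma cls_sum_eq {W : 𝒱.Obj} {i : ℤ} {r : ℕ} (A D z : C.gr W i) (B : Fin r → C.gr W i)
    (h : (z : C.A W) = A + D + ∑ s, (B s : C.A W)) :
    cls A + (∑ s, cls (B s) + cls D) = cls z := by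
  have h1 : z = A + (∑ s, B s + D) := by
    apply Subtype.ext
    rw [h, Submodule.coe_add, Submodule.coe_add, Submodule.coe_sum]
    abel
  rw [h1]
  change Submodule.mkQ _ A + (∑ s, Submodule.mkQ _ (B s) + Submodule.mkQ _ D) =
    Submodule.mkQ _ (A + (∑ s, B s + D))
  rw [map_add, map_add, map_sum]

theorem cell : S_CELL := by
  intro k _ 𝒱 C _ _ hfin X P r hP i
  obtain ⟨hdim, x, a, b, hx, hx1, hab, hst, hdg⟩ := hP
  have hdim' : (P.dim : ℤ) = 2 := by exact_mod_cast hdim
  have h1 : (1 : C.A P) ∈ C.gr P 0 := C.one_mem P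
  have ha : ∀ s, a s ∈ C.gr P 1 := fun s => (hab s).1
  have hb : ∀ s, b s ∈ C.gr P 1 := fun s => (hab s).2
  have hx' : x ∈ C.gr P 2 := hx
  -- the maps
  let Φ : NumSpace C (X.prod P) i →ₗ[ℚ]
      NumSpace C X i × (Fin r → NumSpace C X (i - 1)) × NumSpace C X (i - 2) :=
    LinearMap.prod (indN (pA X x) (pA_mem hx' (by omega)) (pA_num hx' (by omega)))
      (LinearMap.prod (LinearMap.pi fun s => indN (pA X (a s)) (pA_mem (ha s) (by omega))
        (pA_num (ha s) (by omega)))
        (indN (pA X 1) (pA_mem h1 (by omega)) (pA_num h1 (by omega))))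
  let Ψ : NumSpace C X i × (Fin r → NumSpace C X (i - 1)) × NumSpace C X (i - 2) →ₗ[ℚ]
      NumSpace C (X.prod P) i :=
    LinearMap.coprod (indN (eA X 1) (eA_mem h1 (by omega)) (eA_num h1 (by omega)))
      (LinearMap.coprod (∑ s, (indN (eA X (b s)) (eA_mem (hb s) (by omega))
        (eA_num (hb s) (by omega))) ∘ₗ LinearMap.proj s)
        (indN (eA X x) (eA_mem hx' (by omega)) (eA_num hx' (by omega))))
  have hdec : ∀ z : C.A (X.prod P), z = eA X 1 (pA X x z) + eA X x (pA X 1 z) +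
      ∑ s, eA X (b s) (pA X (a s) z) := by
    intro z
    have e := comp_dg C z
    rw [hdg, comp_add, comp_add, comp_sum] at e
    simp only [comp_ext_right] at e
    exact e.symm
  have hΨ : ∀ p v w, Ψ (p, v, w) = indN (eA X 1) (eA_mem h1 (by omega)) (eA_num h1 (by omega)) p +
      (∑ s, indN (eA X (b s)) (eA_mem (hb s) (by omega)) (eA_num (hb s) (by omega)) (v s) +
      indN (eA X x) (eA_mem hx' (by omega)) (eA_num hx' (by omega)) w) := by
    intro p v w
    change _ + ((∑ s, (indN (eA X (b s)) _ _) ∘ₗ LinearMap.proj s) v + _) = _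
    rw [LinearMap.sum_apply]
    rfl
  have hΨΦ : ∀ z, Ψ (Φ z) = z := by
    intro z
    obtain ⟨z, rfl⟩ := cls_surj z
    change Ψ (_, _, _) = _
    rw [hΨ]
    exact cls_sum_eq _ _ _ _ (hdec z.1)
  have hm : ∀ {i j l : ℤ} {u w : C.A P}, u ∈ C.gr P i → w ∈ C.gr P j → l = i + j →
      u * w ∈ C.gr P l := by
    intro i j l u w hu hw hl
    rw [hl]
    exact C.mul_mem hu hw
  have hΦΨ : ∀ z, Φ (Ψ z) = z := by
    rintro ⟨p, v, w⟩
    rw [hΨ]
    refine Prod.ext ?_ (Prod.ext ?_ ?_)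
    · change indN (pA X x) _ _ _ = p
      rw [map_add, map_add, map_sum, ind_deg (q := 1) (by rw [one_mul]; exact hx1), one_smul,
        Finset.sum_eq_zero fun s _ => ind_zero (hm (hb s) hx' rfl) (by omega) _ _ _ _ _,
        ind_zero (hm hx' hx' rfl) (by omega), zero_add, add_zero]
    · funext t
      change indN (pA X (a t)) (pA_mem (ha t) (by omega)) (pA_num (ha t) (by omega)) _ = v t
      rw [map_add, map_add, map_sum, ind_zero (hm h1 (ha t) rfl) (by omega),
        ind_zero (hm hx' (ha t) rfl) (by omega), zero_add, add_zero]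
      have h2 : ∀ s, indN (pA X (a t)) (pA_mem (i := i) (l := i - 1) (ha t) (by omega))
          (pA_num (i := i) (l := i - 1) (ha t) (by omega))
          (indN (eA X (b s)) (eA_mem (i := i - 1) (l := i) (hb s) (by omega))
            (eA_num (i := i - 1) (l := i) (hb s) (by omega)) (v s)) =
          (if t = s then (1 : ℚ) else 0) • v s := by
        intro s
        apply ind_deg
        rw [ch_comm C]
        exact hst t s
      have h3 : ∑ s, (if t = s then (1 : ℚ) else 0) • v s = v t := by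
        rw [Finset.sum_eq_single t]
        · rw [if_pos rfl, one_smul]
        · intro s _ hs
          rw [if_neg (Ne.symm hs), zero_smul]
        · intro h
          exact absurd (Finset.mem_univ t) h
      rw [← h3]
      exact Finset.sum_congr rfl fun s _ => h2 s
    · change indN (pA X 1) _ _ _ = w
      rw [map_add, map_add, map_sum, ind_zero (hm h1 h1 rfl) (by omega),
        Finset.sum_eq_zero fun s _ => ind_zero (hm (hb s) h1 rfl) (by omega) _ _ _ _ _,
        ind_deg (q := 1) (by rw [mul_one]; exact hx1), one_smul, zero_add, zero_add]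
  have e : NumSpace C (X.prod P) i ≃ₗ[ℚ]
      NumSpace C X i × (Fin r → NumSpace C X (i - 1)) × NumSpace C X (i - 2) :=
    LinearEquiv.ofLinearMap Φ Ψ (LinearMap.ext hΦΨ) (LinearMap.ext hΨΦ)
  have f1 := hfin X i
  have f2 := hfin X (i - 1)
  have f3 := hfin X (i - 2)
  have g2 : Module.finrank ℚ (Fin r → NumSpace C X (i - 1)) =
      r * Module.finrank ℚ (NumSpace C X (i - 1)) := by
    have g4 : Module.Free ℚ (NumSpace C X (i - 1)) := Module.Free.of_divisionRing ℚ _
    rw [Module.finrank_pi_fintype ℚ (M := fun _ : Fin r => NumSpace C X (i - 1)), Finset.sum_const, Finset.card_univ, Fintype.card_fin, smul_eq_mul]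
  unfold rho
  rw [LinearEquiv.finrank_eq e, Module.finrank_prod, Module.finrank_prod, g2]
  ring

end Pool.Agent.P8H64.OO
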