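import Pool.Agent.P8H64.OO.Stm

/-!
# Finite rank of the cycles modulo numerical equivalence
-/

set_option autoImplicit false

open CategoryTheory AlgebraicGeometry

universe u v w

namespace Pool.Agent.P8H64.OO

open Pool.Agent.H914 Pool.Agent.H914.VarClass Pool.Agent.H914.VarClass.Obj Pool.Agent.W492.BB
  Pool.Agent.W550.Corr Pool.Agent.TH133 Pool.Agent.TH829.Prime Pool.Agent.TH829.Kim
  Pool.Agent.N174.KN

set_option linter.unusedSectionVars false

variable {k : Type u} [Field k] {𝒱 : VarClass k}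

/-- The degree as a linear form. -/
noncomputable def degL (C : TheoryData.{u, v, 0} 𝒱 ℚ) [hC : IsChowProj C] (X : 𝒱.Obj)
    (hne : (1 : C.A X) ≠ 0) : C.A X →ₗ[ℚ] ℚ where
  toFun x := (exists_deg (C := C) x).choose
  map_add' x y := hasDegree_uniq hne (exists_deg (C := C) (x + y)).choose_spec
    (HasDegree.add (exists_deg (C := C) x).choose_spec (exists_deg (C := C) y).choose_spec)
  map_smul' r x := hasDegree_uniq hne (exists_deg (C := C) (r • x)).choose_spec
    (HasDegree.smul r (exists_deg (C := C) x).choose_spec)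

lemma degL_spec (C : TheoryData.{u, v, 0} 𝒱 ℚ) [hC : IsChowProj C] (X : 𝒱.Obj)
    (hne : (1 : C.A X) ≠ 0) (x : C.A X) : HasDegree C x (degL C X hne x) :=
  (exists_deg (C := C) x).choose_spec

theorem fin : S_FIN.{u, v, w} := by
  intro k _ 𝒱 C _ K _ H hH X hfin i
  have hne : (1 : C.A X) ≠ 0 := Pool.Agent.N174.OV.one_ne H X
  set S : Set (H.A X) := H.cl '' (C.gr X ((X.dim : ℤ) - i) : Set (C.A X)) with hS
  obtain ⟨T, hTS, hT⟩ := (Submodule.fg_span_iff_fg_span_finset_subset S).1
    (IsNoetherian.noetherian (Submodule.span K S))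
  choose w hw hcl using fun y : T => hTS y.2
  set φ : C.gr X i →ₗ[ℚ] (T → ℚ) := LinearMap.pi fun j =>
    (degL C X hne).comp ((LinearMap.mulRight ℚ (w j)).comp (C.gr X i).subtype) with hφ
  have hker : LinearMap.ker φ ≤ (numFam C X i).comap (C.gr X i).subtype := by
    intro x hx
    rw [Submodule.mem_comap]
    refine mem_numFam.2 ⟨x.2, fun b hb => ?_⟩
    obtain ⟨q, hq⟩ := exists_deg (C := C) ((x : C.A X) * b)
    -- the linear map which detects the degree
    set ψ : H.A X →ₗ[K] H.A X := (H.push (snd X X)).comp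
      ((H.pull (fst X X)).toLinearMap.comp (LinearMap.mulLeft K (H.cl (x : C.A X)))) with hψ
    have hψcl : ∀ z : C.A X, ψ (H.cl z) =
        H.cl (C.push (snd X X) (C.pull (fst X X) ((x : C.A X) * z))) := by
      intro z
      rw [H.cl_push, H.cl_pull, map_mul]
      rfl
    have h0 : Submodule.span K S ≤ LinearMap.ker ψ := by
      rw [hT, Submodule.span_le]
      intro y hy
      have hy' : H.cl (w ⟨y, hy⟩) = y := hcl ⟨y, hy⟩
      rw [SetLike.mem_coe, LinearMap.mem_ker, ← hy', hψcl]
      have h1 : HasDegree C ((x : C.A X) * w ⟨y, hy⟩) 0 := by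
        have h2 := degL_spec C X hne ((x : C.A X) * w ⟨y, hy⟩)
        have h3 : degL C X hne ((x : C.A X) * w ⟨y, hy⟩) = 0 :=
          congrFun (LinearMap.mem_ker.1 hx) ⟨y, hy⟩
        rwa [h3] at h2
      rw [(h1 X).1, zero_smul, map_zero]
    have h4 : ψ (H.cl b) = 0 :=
      LinearMap.mem_ker.1 (h0 (Submodule.subset_span ⟨b, hb, rfl⟩))
    rw [hψcl, (hq X).1, Algebra.smul_def, mul_one] at h4
    have h5 : q = 0 := by
      by_contra hq0
      apply hH.one_ne_zero X
      rw [← map_one H.cl, ← map_one (algebraMap ℚ (C.A X)), ← inv_mul_cancel₀ hq0, map_mul,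
        map_mul, h4, mul_zero]
    rwa [h5] at hq
  have hle : (numFam C X i).comap (C.gr X i).subtype ≤ LinearMap.ker φ := by
    intro x hx
    rw [Submodule.mem_comap] at hx
    rw [LinearMap.mem_ker]
    funext j
    exact hasDegree_uniq hne (degL_spec C X hne ((x : C.A X) * w j)) (hx.2 (w j) (hw j))
  exact Module.Finite.of_injective (((numFam C X i).comap (C.gr X i).subtype).liftQ φ hle)
    (LinearMap.ker_eq_bot.1 (Submodule.ker_liftQ_eq_bot _ _ _ hker))

end Pool.Agent.P8H64.OO
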