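import Pool.Agent.P8H64.OO.Stm
import Mathlib.RingTheory.SimpleModule.Basic
import Mathlib.RingTheory.Artinian.Ring

/-!
# Project OO: package JAN (semisimplicity of numerical motives, after Jannsen)
-/

set_option autoImplicit false

open CategoryTheory AlgebraicGeometry

universe u v w

namespace Pool.Agent.P8H64.OO

open Pool.Agent.H914 Pool.Agent.H914.VarClass Pool.Agent.H914.VarClass.Obj Pool.Agent.W492.BB
  Pool.Agent.W550.Corr Pool.Agent.TH133 Pool.Agent.TH829.Prime Pool.Agent.TH829.Kim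

/-- A finite-dimensional algebra with a nondegenerate trace which vanishes on nilpotent elements is
semisimple. -/
lemma jan_semisimple {A : Type v} [Ring A] [Algebra ℚ A] [Module.Finite ℚ A] (t : A →ₗ[ℚ] ℚ)
    (hnil : ∀ a : A, IsNilpotent a → t a = 0) (hnd : ∀ a : A, (∀ b, t (a * b) = 0) → a = 0) :
    IsSemisimpleRing A := by
  have : IsArtinianRing A := IsArtinianRing.of_finite ℚ A
  rw [IsArtinianRing.isSemisimpleRing_iff_jacobson, eq_bot_iff]
  intro a ha
  rw [Submodule.mem_bot]
  apply hnd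
  intro b
  apply hnil
  obtain ⟨n, hn⟩ := IsSemiprimaryRing.isNilpotent (R := A)
  have hab : a * b ∈ Ring.jacobson A := Ideal.mul_mem_right b _ ha
  have h : (a * b) ^ n ∈ (Ring.jacobson A) ^ n := Ideal.pow_mem_pow hab n
  rw [hn] at h
  exact ⟨n, (Submodule.mem_bot _).1 h⟩

section jan

variable {k : Type u} [Field k] {𝒱 : VarClass k}
variable {C : TheoryData.{u, v, 0} 𝒱 ℚ} [hC : IsChowProj C] {X Y : 𝒱.Obj}

/-- The exchange of the last two factors of `(X × Y) × X`. -/
noncomputable def janEx (X Y : 𝒱.Obj) : (X.prod Y).prod X ⟶ (X.prod X).prod Y :=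
  Obj.lift (Obj.lift (fst (X.prod Y) X ≫ fst X Y) (snd (X.prod Y) X))
    (fst (X.prod Y) X ≫ snd X Y)

/-- The exchange of the last two factors of `(X × X) × Y`. -/
noncomputable def janEx' (X Y : 𝒱.Obj) : (X.prod X).prod Y ⟶ (X.prod Y).prod X :=
  Obj.lift (Obj.lift (fst (X.prod X) Y ≫ fst X X) (snd (X.prod X) Y))
    (fst (X.prod X) Y ≫ snd X X)

lemma janEx_janEx' (X Y : 𝒱.Obj) : janEx X Y ≫ janEx' X Y = 𝟙 _ := by
  apply prod_ext
  · apply prod_ext <;> simp [janEx, janEx', comp_lift]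
  · simp [janEx, janEx', comp_lift]

lemma janEx'_janEx (X Y : 𝒱.Obj) : janEx' X Y ≫ janEx X Y = 𝟙 _ := by
  apply prod_ext
  · apply prod_ext <;> simp [janEx, janEx', comp_lift]
  · simp [janEx, janEx', comp_lift]

include hC

/-- The restriction to the diagonal of the composition of `a : X → Y` and `b : Y → X`. -/
lemma jan_ev_comp (a : C.A (X.prod Y)) (b : C.A (Y.prod X)) :
    ev (C.comp a b) (𝟙 X) (𝟙 X) = C.push (fst X Y) (a * tp C b) := by
  have e1 : t13 X Y X = janEx X Y ≫ fst (X.prod X) Y := by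
    apply prod_ext <;> simp [janEx]
  have e2 : (prodMap (Obj.lift (𝟙 X) (𝟙 X)) (𝟙 Y) ≫ janEx' X Y) ≫ t23 X Y X =
      Obj.lift (snd X Y) (fst X Y) := by
    apply prod_ext <;> simp [janEx', comp_lift]
  have e3 : (prodMap (Obj.lift (𝟙 X) (𝟙 X)) (𝟙 Y) ≫ janEx' X Y) ≫ fst (X.prod Y) X =
      𝟙 _ := by
    apply prod_ext <;> simp [janEx', comp_lift]
  rw [ev, TheoryData.comp, e1, C.push_comp,
    ← pull_iso C (janEx' X Y) (janEx X Y) (janEx'_janEx X Y) (janEx_janEx' X Y),
    base_pull, ← C.pull_comp, map_mul, ← C.pull_comp, ← C.pull_comp, e2, e3, C.pull_id,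
    ch_comm C]
  rfl

/-- A correspondence `u : X → Y` all of whose composites with correspondences `Y → X` are
numerically trivial is numerically trivial. -/
lemma jan_num (hne : ∀ X : 𝒱.Obj, (1 : C.A X) ≠ 0) {u : C.A (X.prod Y)}
    (hu : u ∈ C.gr (X.prod Y) X.dim)
    (h : ∀ g ∈ C.gr (Y.prod X) Y.dim, C.comp u g ∈ numFam C (X.prod X) X.dim) :
    u ∈ numFam C (X.prod Y) X.dim := by
  refine ⟨hu, fun b hb => ?_⟩
  have e : ((X.prod Y).dim : ℤ) - X.dim = Y.dim := by rw [dim_prod]; push_cast; ring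
  rw [e] at hb
  have hb' : tp C b ∈ C.gr (Y.prod X) Y.dim := tp_mem C hb
  have h1 := h (tp C b) hb'
  have hub : C.mul u b ∈ C.gr (X.prod Y) (X.prod Y).dim := by
    have h2 := C.mul_mem hu hb
    rw [dim_prod]
    exact_mod_cast h2
  obtain ⟨q, hq⟩ := exists_hasDegree (C := C) hub
  have h3 := hasDegree_push (fst X Y) hq
  have h4 := jan_ev_comp (C := C) u (tp C b)
  rw [tp_tp] at h4
  have h5 : HasDegree C (ev (C.comp u (tp C b)) (𝟙 X) (𝟙 X)) 0 := by
    have h6 := trL_spec (hne := hne) (ofA (C.comp u (tp C b)) h1.1)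
    rw [toA_ofA, trL_of_num (hne := hne) (a := ofA (C.comp u (tp C b)) h1.1) h1] at h6
    exact h6
  rw [h4] at h5
  rwa [hasDegree_uniq (hne X) h3 h5] at hq

end jan

theorem jan : S_JAN.{u, v} := by
  intro k _ 𝒱 C hC hne hfin htr X Y f hXY hf
  have hN : IsAdequate C (numFam C) := (isPrime_numFam hne).toIsAdequate
  -- the ring is finite-dimensional
  let q0 : C.gr (X.prod X) X.dim →ₗ[ℚ] RP (numFam C) hN X :=
    { toFun := fun a => mk (numFam C) hN X (ofA a.1 a.2)
      map_add' := fun a b => map_add (mk (numFam C) hN X) (ofA a.1 a.2) (ofA b.1 b.2)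
      map_smul' := fun r a => mk_smul (hP := hN) r (ofA a.1 a.2) }
  have hker : (numFam C (X.prod X) X.dim).comap (C.gr (X.prod X) X.dim).subtype ≤
      LinearMap.ker q0 := by
    intro a ha
    rw [LinearMap.mem_ker]
    exact (mk_eq_zero (hP := hN)).2 ha
  have hfinA : Module.Finite ℚ (RP (numFam C) hN X) := by
    have := hfin (X.prod X) X.dim
    refine Module.Finite.of_surjective (Submodule.liftQ _ q0 hker) ?_
    intro a
    obtain ⟨a, rfl⟩ := Ideal.Quotient.mk_surjective a
    refine ⟨Submodule.Quotient.mk ⟨toA a, toA_mem a⟩, ?_⟩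
    rfl
  -- the ring is semisimple
  have hss : IsSemisimpleRing (RP (numFam C) hN X) := by
    refine jan_semisimple (trP hne (numFam C) hN le_rfl X) ?_ ?_
    · intro a ha
      obtain ⟨a, rfl⟩ := Ideal.Quotient.mk_surjective a
      obtain ⟨r, hr⟩ := ha
      refine htr X a r ?_
      rw [← mk_eq_zero (hP := hN)]
      rw [map_pow]
      exact hr
    · intro a ha
      obtain ⟨a, rfl⟩ := Ideal.Quotient.mk_surjective a
      refine (mk_eq_zero (hP := hN)).2 ⟨toA_mem a, fun c hc => ?_⟩
      have e : ((X.prod X).dim : ℤ) - X.dim = X.dim := by rw [dim_prod]; push_cast; ring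
      rw [e] at hc
      have h1 := trL_mul (hne := hne) (ofA (tp C c) (tp_mem C hc)) a
      rw [toA_ofA, tp_tp, trL_comm] at h1
      have h2 : trL hne X (a * ofA (tp C c) (tp_mem C hc)) = 0 :=
        ha (mk (numFam C) hN X (ofA (tp C c) (tp_mem C hc)))
      rw [h2] at h1
      exact h1
  -- the left ideal of the maps which factor through `f`
  have hcomp : ∀ g ∈ C.gr (Y.prod X) Y.dim, C.comp f g ∈ C.gr (X.prod X) X.dim := by
    intro g hg
    have := comp_mem C (X := X) (Y := Y) (Z := X) (e := 0) (e' := 0) (Γ := f) (Δ := g)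
      (by rwa [add_zero]) (by rwa [add_zero])
    rwa [add_zero, add_zero] at this
  let I : Ideal (RP (numFam C) hN X) :=
    { carrier := {a | ∃ (g : C.A (Y.prod X)) (hg : g ∈ C.gr (Y.prod X) Y.dim),
        a = mk (numFam C) hN X (ofA (C.comp f g) (hcomp g hg))}
      zero_mem' := by
        refine ⟨0, Submodule.zero_mem _, ?_⟩
        symm
        refine (mk_eq_zero (hP := hN)).2 ?_
        rw [toA_ofA, comp_zero]
        exact Submodule.zero_mem _
      add_mem' := by
        rintro a b ⟨g, hg, rfl⟩ ⟨g', hg', rfl⟩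
        refine ⟨g + g', Submodule.add_mem _ hg hg', ?_⟩
        rw [← map_add]
        congr 1
        apply toA_inj
        rw [map_add, toA_ofA, toA_ofA, toA_ofA, comp_add]
      smul_mem' := by
        rintro r a ⟨g, hg, rfl⟩
        obtain ⟨r, rfl⟩ := Ideal.Quotient.mk_surjective r
        have hgr : C.comp g (toA r) ∈ C.gr (Y.prod X) Y.dim := by
          have := comp_mem C (X := Y) (Y := X) (Z := X) (e := 0) (e' := 0) (Γ := g) (Δ := toA r)
            (by rwa [add_zero]) (by rw [add_zero]; exact toA_mem r)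
          rwa [add_zero, add_zero] at this
        refine ⟨C.comp g (toA r), hgr, ?_⟩
        rw [smul_eq_mul]
        change mk (numFam C) hN X r * mk (numFam C) hN X _ = _
        rw [← map_mul]
        congr 1
        apply toA_inj
        rw [toA_mul, toA_ofA, toA_ofA, comp_assoc] }
  obtain ⟨e, he, hI⟩ := IsSemisimpleRing.ideal_eq_span_idempotent I
  have heI : e ∈ I := by
    rw [hI]
    exact Ideal.subset_span rfl
  have hIe : ∀ x ∈ I, x * e = x := by
    intro x hx
    rw [hI] at hx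
    obtain ⟨r, rfl⟩ := Ideal.mem_span_singleton'.1 hx
    rw [mul_assoc, he.eq]
  obtain ⟨g, hg, rfl⟩ := heI
  refine ⟨g, hg, jan_num hne ?_ ?_⟩
  · refine Submodule.sub_mem _ ?_ hf
    have := comp_mem C (X := X) (Y := X) (Z := Y) (e := 0) (e' := 0) (Γ := C.comp f g) (Δ := f)
      (by rw [add_zero]; exact hcomp g hg) (by rwa [add_zero])
    rwa [add_zero, add_zero] at this
  · intro g' hg'
    have h1 := hIe _ ⟨g', hg', rfl⟩
    rw [← map_mul, ← sub_eq_zero, ← map_sub, mk_eq_zero (hP := hN), map_sub, toA_mul, toA_ofA,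
      toA_ofA] at h1
    rw [sub_comp, comp_assoc C (C.comp f g) f g']
    exact h1

end Pool.Agent.P8H64.OO
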