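import Pool.Agent.P8H64.OO.Stm

/-!
# Isomorphisms of Kimura-finite motives modulo numerical equivalence lift
-/

set_option autoImplicit false

open CategoryTheory AlgebraicGeometry

universe u v w

namespace Pool.Agent.P8H64.OO

open Pool.Agent.H914 Pool.Agent.H914.VarClass Pool.Agent.H914.VarClass.Obj Pool.Agent.W492.BB
  Pool.Agent.W550.Corr Pool.Agent.TH133 Pool.Agent.TH829.Prime Pool.Agent.TH829.Kim

set_option linter.unusedSectionVars false

variable {k : Type u} [Field k] {𝒱 : VarClass k}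

section chow

variable {C : TheoryData.{u, v, 0} 𝒱 ℚ} [hC : IsChowProj C] {X Y : 𝒱.Obj}

include hC

/-- Kimura's nilpotence theorem. -/
theorem nil_of_num (hne : ∀ X : 𝒱.Obj, (1 : C.A X) ≠ 0)
    (hK : IsKimuraFinite C (ratFam C) X) {a : R0 C X}
    (ha : toA a ∈ numFam C (X.prod X) X.dim) : IsNilpotent a := by
  have hP : IsAdequate C (ratFam C) := isAdequate_bot
  have hle : ratFam C ≤ numFam C := fun _ _ => bot_le
  have hN := (isPrime_numFam hne).toIsAdequate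
  have h1 : ∀ Z : 𝒱.Obj, (1 : C.A Z) ∉ ratFam C Z 0 := fun Z h => hne Z ((Submodule.mem_bot ℚ).1 h)
  obtain ⟨f, hf1, ⟨n, hf2⟩, ⟨m, hf3⟩⟩ := (isKimuraFinite_iff _ X).1 hK
  have hidem : mk (ratFam C) hP X f * mk (ratFam C) hP X f = mk (ratFam C) hP X f := by
    rw [← map_mul, ← sub_eq_zero, ← map_sub]
    exact mk_eq_zero.2 hf1
  have hs : ∀ a b : RP (ratFam C) hP X, trP hne (ratFam C) hP hle X (a * b) =
      trP hne (ratFam C) hP hle X (b * a) := fun a b => trP_comm a b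
  have hrad : InRad (trP hne (ratFam C) hP hle X) (mk (ratFam C) hP X a) := by
    intro γ
    obtain ⟨γ, rfl⟩ := Ideal.Quotient.mk_surjective γ
    have h2 : trL hne X (a * γ) = 0 :=
      trL_of_num (hne := hne) (adq_comp_right hN (toA_mem γ) ha)
    rw [← map_mul]
    exact h2
  have h3 : IsNilpotent (mk (ratFam C) hP X a) := by
    refine isNilpotent_of_inRad hs hidem (n := n) (m := m)
      (Dies.killed (hne := hne) h1 hf2) ?_ hrad
    have := Dies.killed (hne := hne) (hP := hP) (hle := hle) h1 hf3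
    rwa [map_sub, map_one] at this
  obtain ⟨N, hN⟩ := h3
  refine ⟨N, toA_inj ?_⟩
  rw [← map_pow, mk_eq_zero] at hN
  rw [(Submodule.mem_bot ℚ).1 hN, map_zero]

/-- Correspondences which are the diagonal modulo numerical equivalence are invertible. -/
theorem exists_inv_of_num (hne : ∀ X : 𝒱.Obj, (1 : C.A X) ≠ 0)
    (hK : IsKimuraFinite C (ratFam C) X) {p : C.A (X.prod X)} (hp : p ∈ C.gr (X.prod X) X.dim)
    (h : p - dg C X ∈ numFam C (X.prod X) X.dim) :
    ∃ p' ∈ C.gr (X.prod X) X.dim, C.comp p p' = dg C X ∧ C.comp p' p = dg C X := by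
  have h1 : IsNilpotent (ofA p hp - 1 : R0 C X) := nil_of_num hne hK (by
    rw [map_sub, toA_ofA, toA_one]
    exact h)
  obtain ⟨U, hU⟩ := h1.isUnit_add_one
  rw [sub_add_cancel] at hU
  refine ⟨toA (↑U⁻¹ : R0 C X), toA_mem _, ?_, ?_⟩
  · have h3 : (↑U⁻¹ : R0 C X) * ofA p hp = 1 := by rw [← hU, Units.inv_mul]
    have h4 := congrArg toA h3
    rwa [toA_mul, toA_ofA, toA_one] at h4
  · have h3 : ofA p hp * (↑U⁻¹ : R0 C X) = 1 := by rw [← hU, Units.mul_inv]
    have h4 := congrArg toA h3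
    rwa [toA_mul, toA_ofA, toA_one] at h4

lemma comp_mem_dim {X Y Z : 𝒱.Obj} {Γ : C.A (X.prod Y)} {Δ : C.A (Y.prod Z)}
    (hΓ : Γ ∈ C.gr (X.prod Y) X.dim) (hΔ : Δ ∈ C.gr (Y.prod Z) Y.dim) :
    C.comp Γ Δ ∈ C.gr (X.prod Z) X.dim := by
  have := comp_mem C (X := X) (Y := Y) (Z := Z) (e := 0) (e' := 0) (by rwa [add_zero])
    (by rwa [add_zero]) (Γ := Γ) (Δ := Δ)
  rwa [add_zero, add_zero] at this

end chow

theorem lift : S_LIFT.{u, v} := by
  intro k _ 𝒱 C _ hne X Y hdim hKX hKY hnum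
  obtain ⟨Z, Z', hZ, hZ', h1, h2⟩ := hnum
  obtain ⟨a, ha, ha1, ha2⟩ := exists_inv_of_num hne hKX (comp_mem_dim hZ hZ') h1
  obtain ⟨b, hb, hb1, hb2⟩ := exists_inv_of_num hne hKY (comp_mem_dim hZ' hZ) h2
  have e1 : C.comp Z (C.comp Z' a) = dg C X := by rw [← comp_assoc, ha1]
  have e2 : C.comp (C.comp b Z') Z = dg C Y := by rw [comp_assoc, hb2]
  have e3 : C.comp b Z' = C.comp Z' a := by
    calc C.comp b Z' = C.comp (C.comp b Z') (C.comp Z (C.comp Z' a)) := by rw [e1, comp_dg]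
      _ = C.comp (C.comp (C.comp b Z') Z) (C.comp Z' a) := by rw [comp_assoc C (C.comp b Z')]
      _ = C.comp Z' a := by rw [e2, dg_comp]
  refine ⟨Z, C.comp Z' a, hZ, comp_mem_dim hZ' ha, e1, ?_⟩
  rw [← e3, e2]

end Pool.Agent.P8H64.OO
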