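import Pool.Agent.P8H64.OO.Stm

/-!
# OO/NIL: correspondences which are numerically nilpotent have trace zero
-/

set_option autoImplicit false

open CategoryTheory AlgebraicGeometry

universe u v w

namespace Pool.Agent.P8H64.OO

open Pool.Agent.H914 Pool.Agent.H914.VarClass Pool.Agent.H914.VarClass.Obj Pool.Agent.W492.BB
  Pool.Agent.W550.Corr Pool.Agent.TH133 Pool.Agent.TH829.Prime Pool.Agent.TH829.Kim

/-- **NIL** -/
theorem nil : S_NIL.{u, v, w} := by
  intro hlin hstr k _ 𝒱 C hC K _ _ H hH hne X a r hr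
  obtain ⟨hfin, P, hP1, hP2⟩ := hstr k 𝒱 C K H X
  have hpow : ∀ j : ℕ, H.actL (H.cl (toA a)) ^ j = H.actL (H.cl (toA (a ^ j))) := by
    intro j
    have h1 : actH C X H ((a : Cor C X) ^ j) = actH C X H (a : Cor C X) ^ j := map_pow _ _ _
    exact h1.symm
  have htr : ∀ j : ℕ, LinearMap.trace K (H.A X) (P * H.actL (H.cl (toA a)) ^ j) =
      (trL hne X (a ^ j) : K) := by
    intro j
    rw [hpow]
    exact hP2 _ (toA_mem _) _ (trL_spec (hne := hne) (a ^ j))
  have hN : IsAdequate C (numFam C) := (isPrime_numFam hne).toIsAdequate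
  have hzero : ∀ j : ℕ, r ≤ j →
      LinearMap.trace K (H.A X) (P * H.actL (H.cl (toA a)) ^ j) = 0 := by
    intro j hj
    rw [htr]
    have h1 : a ^ j ∈ idl (numFam C) hN X := by
      rw [← Nat.sub_add_cancel hj, pow_add]
      exact Ideal.mul_mem_left _ _ (mem_idl.2 hr)
    rw [trL_of_num (mem_idl.1 h1), Rat.cast_zero]
  have h2 := hlin K (H.A X) P (H.actL (H.cl (toA a))) r (hP1 _ (toA_mem a)) hzero
  have h3 := htr 1
  rw [pow_one, pow_one, h2] at h3
  exact_mod_cast h3.symm

end Pool.Agent.P8H64.OO
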