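import Pool.Agent.P8H64.OO.Stm

/-!
# OO/STR: the Lefschetz trace formula
-/

set_option autoImplicit false
set_option linter.unusedSectionVars false

open CategoryTheory AlgebraicGeometry

universe u v w

namespace Pool.Agent.P8H64.OO

open Pool.Agent.H914 Pool.Agent.H914.VarClass Pool.Agent.H914.VarClass.Obj Pool.Agent.W492.BB
  Pool.Agent.W550.Corr Pool.Agent.TH133 Pool.Agent.TH829.Prime Pool.Agent.TH829.Kim

section sign

variable (K : Type w) [Field K]

/-- the sign `(-1) ^ i` -/
noncomputable def sg (i : ℤ) : K := if Even i then 1 else -1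

lemma sg_mul_self (i : ℤ) : sg K i * sg K i = 1 := by
  unfold sg
  split_ifs <;> simp

lemma sg_sq (i : ℤ) : sg K (i * i) = sg K i := by
  by_cases h : Even i <;> simp [sg, Int.even_mul, h]

end sign

section strpf

variable {k : Type u} [Field k] {𝒱 : VarClass k} {C : TheoryData.{u, v, 0} 𝒱 ℚ}
  [hC : IsChowProj C] {K : Type w} [Field K] (H : WeilTheoryData.{u, v, w} C K)
  [hH : IsWeilComm H] {X Y : 𝒱.Obj}

include hC hH

/-- the operator `(-1) ^ i` on `H^i(X)` -/
noncomputable def sgn (X : 𝒱.Obj) : Module.End K (H.A X) :=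
  (DirectSum.toModule K ℤ (H.A X) (fun i => sg K i • (H.gr X i).subtype)) ∘ₗ
    (LinearEquiv.ofBijective (DirectSum.coeLinearMap (H.gr X)) (H.isInternal X)).symm.toLinearMap

lemma sgn_apply {i : ℤ} {a : H.A X} (ha : a ∈ H.gr X i) : sgn H X a = sg K i • a := by
  have h : (LinearEquiv.ofBijective (DirectSum.coeLinearMap (H.gr X)) (H.isInternal X)).symm a =
      DirectSum.lof K ℤ (fun i => H.gr X i) i ⟨a, ha⟩ := by
    rw [LinearEquiv.symm_apply_eq]
    exact (DirectSum.coeLinearMap_lof (H.gr X) i ⟨a, ha⟩).symm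
  rw [sgn, LinearMap.comp_apply, LinearEquiv.coe_coe, h, DirectSum.toModule_lof]
  rfl

/-- `q_* p^* x` is a multiple of the fundamental class -/
lemma exists_lam (X : 𝒱.Obj) : ∃ l : H.A X →ₗ[K] K,
    ∀ x, H.push (snd X X) (H.pull (fst X X) x) = l x • (1 : H.A X) := by
  obtain ⟨φ, hφ⟩ : ∃ φ : H.A X →ₗ[K] K, φ 1 = 1 := by
    have h : ¬ ∀ φ : Module.Dual K (H.A X), φ 1 = 0 := by
      rw [Module.forall_dual_apply_eq_zero_iff]
      exact hH.toIsWeilProj.one_ne_zero X
    push Not at h
    obtain ⟨φ, hφ⟩ := h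
    exact ⟨(φ 1)⁻¹ • φ, by rw [LinearMap.smul_apply, smul_eq_mul, inv_mul_cancel₀ hφ]⟩
  obtain ⟨F, hF⟩ : ∃ F : H.A X →ₗ[K] H.A X,
      ∀ x, F x = H.push (snd X X) (H.pull (fst X X) x) :=
    ⟨H.push (snd X X) ∘ₗ (H.pull (fst X X)).toLinearMap, fun _ => rfl⟩
  have h1 : ∀ x, ∃ c : K, F x = c • (1 : H.A X) := by
    intro x
    have h2 : ⨆ i, H.gr X i ≤ (Submodule.span K {(1 : H.A X)}).comap F := by
      refine iSup_le fun i x hx => ?_
      rw [Submodule.mem_comap, Submodule.mem_span_singleton]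
      have h3 : F x ∈ H.gr X (i - 2 * X.dim) := by
        have h := H.push_mem (snd X X) (H.pull_mem (fst X X) hx)
        have e1 : i + 2 * ((X.dim : ℤ) - ((X.prod X).dim : ℤ)) = i - 2 * X.dim := by
          rw [dim_prod]; push_cast; ring
        rwa [e1, ← hF] at h
      rcases lt_trichotomy i (2 * X.dim) with h | h | h
      · rw [H.gr_neg X _ (by omega)] at h3
        exact ⟨0, by rw [zero_smul]; exact ((Submodule.mem_bot _).1 h3).symm⟩
      · rw [h, sub_self] at h3
        obtain ⟨c, hc⟩ := hH.toIsWeilProj.gr_zero X _ h3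
        exact ⟨c, hc.symm⟩
      · rw [gr_top H h] at hx
        rw [(Submodule.mem_bot _).1 hx, map_zero]
        exact ⟨0, zero_smul _ _⟩
    have h4 := h2 (span_gr H X x)
    rw [Submodule.mem_comap, Submodule.mem_span_singleton] at h4
    obtain ⟨c, hc⟩ := h4
    exact ⟨c, hc.symm⟩
  refine ⟨φ ∘ₗ F, fun x => ?_⟩
  obtain ⟨c, hc⟩ := h1 x
  rw [← hF, LinearMap.comp_apply, hc, map_smul, hφ, smul_eq_mul, mul_one]

/-- graded commutativity -/
lemma comm_sg {i j : ℤ} {a b : H.A X} (ha : a ∈ H.gr X i) (hb : b ∈ H.gr X j) :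
    a * b = sg K (i * j) • (b * a) := by
  unfold sg
  split_ifs with h
  · rw [one_smul]
    exact hH.comm_even ha hb h
  · rw [neg_smul, one_smul]
    exact hH.comm_odd ha hb (Int.not_even_iff_odd.1 h)

/-- the action of an external product of complementary degrees -/
lemma act_ext {l : H.A X →ₗ[K] K}
    (hl : ∀ x, H.push (snd X X) (H.pull (fst X X) x) = l x • (1 : H.A X)) {i j : ℤ}
    (hij : i + j = 2 * X.dim) {a b : H.A X} (ha : a ∈ H.gr X i) (hb : b ∈ H.gr X j) :
    H.actL (H.pull (fst X X) a * H.pull (snd X X) b) =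
      sg K j • (l ∘ₗ LinearMap.mulLeft K a).smulRight b := by
  apply ext_gr H
  intro m c hc
  rw [TheoryData.actL_apply, TheoryData.act_apply, mul_assoc,
    comm_sg H (H.pull_mem (snd X X) hb) (H.pull_mem (fst X X) hc), mul_smul_comm, map_smul,
    ← mul_assoc, ← map_mul, H.proj_right, hl, smul_mul_assoc, one_mul, LinearMap.smul_apply,
    LinearMap.smulRight_apply, LinearMap.comp_apply, LinearMap.mulLeft_apply]
  by_cases h : m = j
  · rw [h, sg_sq]
  · have h1 : l (a * c) • (1 : H.A X) = 0 := by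
      rw [← hl]
      rcases lt_or_gt_of_ne h with h2 | h2
      · have h3 := H.push_mem (snd X X) (H.pull_mem (fst X X) (H.mul_mem ha hc))
        rw [H.gr_neg X _ (by rw [dim_prod]; push_cast; omega)] at h3
        exact (Submodule.mem_bot _).1 h3
      · have h3 := H.mul_mem ha hc
        rw [gr_top H (by omega)] at h3
        rw [(Submodule.mem_bot _).1 h3, map_zero, map_zero]
    have h2 : l (a * c) = 0 := by
      rcases smul_eq_zero.1 h1 with h2 | h2
      · exact h2
      · exact absurd h2 (hH.toIsWeilProj.one_ne_zero X)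
    rw [h2, zero_smul, smul_zero, smul_zero]

/-- induction over `H^(2d)(X × X)` -/
lemma mid_ind {p : H.A (X.prod X) → Prop}
    (hext : ∀ (i j : ℤ) (a b : H.A X), i + j = 2 * X.dim → a ∈ H.gr X i → b ∈ H.gr X j →
      p (H.pull (fst X X) a * H.pull (snd X X) b))
    (hzero : p 0) (hadd : ∀ a b, p a → p b → p (a + b)) (hsmul : ∀ (c : K) a, p a → p (c • a))
    {Γ : H.A (X.prod X)} (hΓ : Γ ∈ H.gr (X.prod X) (2 * X.dim)) : p Γ := by
  have h1 := H.kunneth X X (2 * X.dim) hΓ
  clear hΓ
  induction h1 using Submodule.span_induction with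
  | mem x hx =>
    obtain ⟨l, a, b, ha, hb, rfl⟩ := hx
    exact hext l _ a b (by ring) ha hb
  | zero => exact hzero
  | add x y _ _ hx hy => exact hadd x y hx hy
  | smul c x _ hx => exact hsmul c x hx

lemma finite_A (X : 𝒱.Obj) : Module.Finite K (H.A X) := by
  obtain ⟨l, hl⟩ := exists_lam H X
  have h1 : H.cl (dg C X) ∈ H.gr (X.prod X) (2 * X.dim) := H.cl_mem (dg_mem C X)
  have h2 : Module.Finite K (LinearMap.range (H.actL (H.cl (dg C X)))) := by
    refine mid_ind H (p := fun Γ => Module.Finite K (LinearMap.range (H.actL Γ))) ?_ ?_ ?_ ?_ h1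
    · intro i j a b hij ha hb
      show Module.Finite K (LinearMap.range (H.actL (H.pull (fst X X) a * H.pull (snd X X) b)))
      rw [act_ext H hl hij ha hb]
      refine Submodule.finiteDimensional_of_le (S₂ := Submodule.span K {b}) ?_
      rintro _ ⟨x, rfl⟩
      rw [LinearMap.smul_apply, LinearMap.smulRight_apply, smul_smul]
      exact Submodule.smul_mem _ _ (Submodule.mem_span_singleton_self b)
    · show Module.Finite K (LinearMap.range (H.actL (0 : H.A (X.prod X))))
      refine Submodule.finiteDimensional_of_le (S₂ := (⊥ : Submodule K (H.A X))) ?_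
      rintro _ ⟨x, rfl⟩
      rw [TheoryData.actL_apply, TheoryData.act_zero]
      exact Submodule.zero_mem _
    · intro Γ Δ h3 h4
      have h3' : Module.Finite K (LinearMap.range (H.actL Γ)) := h3
      have h4' : Module.Finite K (LinearMap.range (H.actL Δ)) := h4
      refine Submodule.finiteDimensional_of_le
        (S₂ := LinearMap.range (H.actL Γ) ⊔ LinearMap.range (H.actL Δ)) ?_
      rintro _ ⟨x, rfl⟩
      rw [TheoryData.actL_apply, TheoryData.act_add]
      exact Submodule.add_mem_sup ⟨x, rfl⟩ ⟨x, rfl⟩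
    · intro c Γ h3
      have h3' : Module.Finite K (LinearMap.range (H.actL Γ)) := h3
      refine Submodule.finiteDimensional_of_le (S₂ := LinearMap.range (H.actL Γ)) ?_
      rintro _ ⟨x, rfl⟩
      have : H.actL (c • Γ) x = c • H.actL Γ x := by
        have := congrArg (fun f => f x) (map_smul (actB H.toTheoryData (X := X) (Y := X)) c Γ)
        exact this
      rw [this]
      exact Submodule.smul_mem _ _ ⟨x, rfl⟩
  have h3 : LinearMap.range (H.actL (H.cl (dg C X))) = ⊤ := by
    rw [LinearMap.range_eq_top]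
    intro x
    exact ⟨x, actH_dg H x⟩
  rw [h3] at h2
  exact Module.Finite.equiv (Submodule.topEquiv (R := K) (M := H.A X))

/-- the trace formula in cohomology -/
lemma trace_formula {l : H.A X →ₗ[K] K}
    (hl : ∀ x, H.push (snd X X) (H.pull (fst X X) x) = l x • (1 : H.A X))
    {Γ : H.A (X.prod X)} (hΓ : Γ ∈ H.gr (X.prod X) (2 * X.dim)) :
    LinearMap.trace K (H.A X) (sgn H X * H.actL Γ) = l (H.pull (Obj.lift (𝟙 X) (𝟙 X)) Γ) := by
  haveI := finite_A H X
  refine mid_ind H (p := fun Γ => LinearMap.trace K (H.A X) (sgn H X * H.actL Γ) =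
    l (H.pull (Obj.lift (𝟙 X) (𝟙 X)) Γ)) ?_ ?_ ?_ ?_ hΓ
  · intro i j a b hij ha hb
    show LinearMap.trace K (H.A X) (sgn H X * H.actL (H.pull (fst X X) a * H.pull (snd X X) b)) =
      l (H.pull (Obj.lift (𝟙 X) (𝟙 X)) (H.pull (fst X X) a * H.pull (snd X X) b))
    have e1 : sgn H X * H.actL (H.pull (fst X X) a * H.pull (snd X X) b) =
        (l ∘ₗ LinearMap.mulLeft K a).smulRight b := by
      rw [act_ext H hl hij ha hb]
      apply LinearMap.ext
      intro c
      rw [Module.End.mul_apply, LinearMap.smul_apply, LinearMap.smulRight_apply, map_smul,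
        map_smul, sgn_apply H hb, smul_comm _ (sg K j) b, smul_smul, sg_mul_self, one_smul]
    rw [e1, LinearMap.trace_smulRight, LinearMap.comp_apply, LinearMap.mulLeft_apply,
      map_mul (H.pull (Obj.lift (𝟙 X) (𝟙 X))), ← H.pull_comp, ← H.pull_comp, lift_fst, lift_snd, H.pull_id, H.pull_id]
  · show LinearMap.trace K (H.A X) (sgn H X * H.actL (0 : H.A (X.prod X))) = _
    have e1 : H.actL (0 : H.A (X.prod X)) = 0 := LinearMap.ext fun x => TheoryData.act_zero _ x
    rw [e1, mul_zero, map_zero, map_zero, map_zero]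
  · intro Γ Δ h3 h4
    have e1 : H.actL (Γ + Δ) = H.actL Γ + H.actL Δ :=
      LinearMap.ext fun x => TheoryData.act_add _ Γ Δ x
    show LinearMap.trace K (H.A X) (sgn H X * H.actL (Γ + Δ)) = _
    rw [e1, mul_add, map_add, map_add, map_add, h3, h4]
  · intro c Γ h3
    have e1 : H.actL (c • Γ) = c • H.actL Γ := by
      have := map_smul (actB H.toTheoryData (X := X) (Y := X)) c Γ
      exact this
    show LinearMap.trace K (H.A X) (sgn H X * H.actL (c • Γ)) = _
    rw [e1, mul_smul_comm, map_smul, map_smul, map_smul, h3]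

/-- the coefficient field contains the rational numbers -/
lemma cl_rat (X : 𝒱.Obj) (q : ℚ) : H.cl (q • (1 : C.A X)) = (q : K) • (1 : H.A X) := by
  have hcz : CharZero K := by
    refine charZero_of_inj_zero fun n hn => ?_
    by_contra h
    apply hH.toIsWeilProj.one_ne_zero X
    have h1 : ((n : ℚ) • (1 : C.A X)) * ((n : ℚ)⁻¹ • (1 : C.A X)) = 1 := by
      rw [smul_mul_smul_comm, mul_inv_cancel₀ (by exact_mod_cast h), one_mul, one_smul]
    have h2 : H.cl ((n : ℚ) • (1 : C.A X)) = 0 := by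
      have h3 : ((n : ℚ) • (1 : C.A X)) = ((n : ℕ) : C.A X) := by
        rw [Nat.cast_smul_eq_nsmul, nsmul_eq_mul, mul_one]
      have h4 : ((n : ℕ) : H.A X) = (n : K) • (1 : H.A X) := by
        rw [Nat.cast_smul_eq_nsmul, nsmul_eq_mul, mul_one]
      rw [h3, map_natCast, h4, hn, zero_smul]
    rw [← map_one H.cl, ← h1, map_mul, h2, zero_mul]
  have h1 : (H.cl).comp (algebraMap ℚ (C.A X)) =
      (algebraMap K (H.A X)).comp (algebraMap ℚ K) := Subsingleton.elim _ _
  have h2 := congrArg (fun f => f q) h1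
  simp only [RingHom.comp_apply] at h2
  rw [Algebra.algebraMap_eq_smul_one, Algebra.algebraMap_eq_smul_one] at h2
  rw [h2]
  rfl

end strpf

/-- **STR** -/
theorem str : S_STR.{u, v, w} := by
  intro k _ 𝒱 C hC K _ H hH X
  refine ⟨finite_A H X, sgn H X, fun z hz => ?_, fun z hz q hq => ?_⟩
  · apply ext_gr H
    intro m a ha
    rw [Module.End.mul_apply, Module.End.mul_apply, sgn_apply H ha, map_smul]
    have h1 : H.actL (H.cl z) a ∈ H.gr X m := by
      have h2 := actH_mem H (X := X) (Y := X) (e := 0) (Γ := z) (by rwa [add_zero]) ha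
      rwa [mul_zero, add_zero] at h2
    rw [sgn_apply H h1]
  · obtain ⟨l, hl⟩ := exists_lam H X
    have h1 := trace_formula H hl (H.cl_mem hz)
    rw [h1, ← H.cl_pull]
    have h2 := hl (H.cl (C.pull (Obj.lift (𝟙 X) (𝟙 X)) z))
    rw [← H.cl_pull, ← H.cl_push, (hq X).1, cl_rat H X q] at h2
    have h3 : ((q : K) - l (H.cl (C.pull (Obj.lift (𝟙 X) (𝟙 X)) z))) • (1 : H.A X) = 0 := by
      rw [sub_smul, h2, sub_self]
    rcases smul_eq_zero.1 h3 with h4 | h4
    · exact (sub_eq_zero.1 h4).symm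
    · exact absurd h4 (hH.toIsWeilProj.one_ne_zero X)

end Pool.Agent.P8H64.OO
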