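import Pool.Agent.P8H64.OO.Conv
import Pool.Agent.P8H64.OO.Jan
import Pool.Agent.P8H64.OO.Fin
import Pool.Agent.P8H64.OO.Lift
import Pool.Agent.P8H64.OO.Nil
import Pool.Agent.P8H64.OO.Str
import Pool.Agent.P8H29.OO.Lin
import Pool.Agent.P8H29.OO.Core

/-!
# One number decides Orlov's conjecture: assembly
-/

set_option autoImplicit false

open CategoryTheory AlgebraicGeometry Module

universe u v w

namespace Pool.Agent.P8H64.OO

open Pool.Agent.H914 Pool.Agent.H914.VarClass Pool.Agent.H914.VarClass.Obj Pool.Agent.W492.BB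
  Pool.Agent.W550.Corr Pool.Agent.TH133 Pool.Agent.TH829.Prime Pool.Agent.TH829.Kim

variable {k : Type u} [Field k] {𝒱 : VarClass k} {C : TheoryData.{u, v, 0} 𝒱 ℚ}
  [hC : IsChowProj C] {K : Type w} [Field K]

lemma isFin (H : WeilTheoryData.{u, v, w} C K) [hH : IsWeilComm H] : IsFin C := fun X i =>
  fin k 𝒱 C K H X (str k 𝒱 C K H X).1 i

lemma nz (H : WeilTheoryData.{u, v, w} C K) [hH : IsWeilComm H] : NZ C :=
  ⟨Pool.Agent.N174.OV.one_ne H⟩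

lemma isRegular [CharZero K] (H : WeilTheoryData.{u, v, w} C K) [hH : IsWeilComm H] :
    IsRegular C :=
  jan k 𝒱 C (nz H).ne (isFin H) fun X a r =>
    nil Pool.Agent.P8H29.OO.lin_main str k 𝒱 C K H (nz H).ne X a r

theorem final [CharZero K] (H : WeilTheoryData.{u, v, w} C K) [hH : IsWeilComm H] :
    (∀ (X : 𝒱.Obj) (i : ℤ), ∃ N : ℕ, ∀ (n : ℕ) (x : Fin n → C.A X), Indep C i x → n ≤ N) ∧
    (∀ X Y : 𝒱.Obj, X.dim = Y.dim →
      2 * rk C (X.prod Y) X.dim ≤ rk C (X.prod X) X.dim + rk C (Y.prod Y) Y.dim ∧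
      (2 * rk C (X.prod Y) X.dim = rk C (X.prod X) X.dim + rk C (Y.prod Y) Y.dim ↔
        NumIsom C X Y) ∧
      (IsKimuraFinite C (ratFam C) X → IsKimuraFinite C (ratFam C) Y →
        (2 * rk C (X.prod Y) X.dim = rk C (X.prod X) X.dim + rk C (Y.prod Y) Y.dim ↔
          ChowIso C X Y))) ∧
    ∀ R : 𝒱.Obj → 𝒱.Obj → Prop, IsStable R →
      (∀ d : ℕ, (∀ Z W : 𝒱.Obj, R Z W → Z.dim = 2 * d → rk C Z d = rk C W d) →
        ∀ X Y : 𝒱.Obj, R X Y → X.dim = d → NumIsom C X Y) ∧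
      List.TFAE [∀ X Y : 𝒱.Obj, R X Y → NumIsom C X Y,
        ∀ X Y : 𝒱.Obj, R X Y → ∀ i : ℤ, rk C X i = rk C Y i,
        ∀ X Y : 𝒱.Obj, R X Y → ∀ m : ℕ, X.dim = 2 * m → rk C X m = rk C Y m,
        ∀ X Y : 𝒱.Obj, R X Y → rk C (X.prod X) X.dim ≤ rk C (X.prod Y) X.dim] ∧
      ((∀ X : 𝒱.Obj, IsKimuraFinite C (ratFam C) X) →
        ((∀ X Y : 𝒱.Obj, R X Y → ChowIso C X Y) ↔
          ∀ X Y : 𝒱.Obj, R X Y → ∀ m : ℕ, X.dim = 2 * m → rk C X m = rk C Y m)) := by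
  have := nz H
  have hcore : S_CORE.{u + 1, v} := Pool.Agent.P8H29.OO.core_main
  have hreg : IsRegular C := isRegular H
  have hfin : IsFin C := isFin H
  simp only [rk_eq hfin]
  refine ⟨fun X i => ⟨rho C X i, fun n x hx => indep_le hfin hx⟩, fun X Y hd => ?_,
    fun R hR => ?_⟩
  · obtain ⟨h1, h2⟩ := core_num hcore hreg hfin hd
    refine ⟨h1, by rw [h2, numIsom_iff hd], fun hX hY => ?_⟩
    rw [h2]
    exact ⟨fun h => lift k 𝒱 C (nz H).ne X Y hd hX hY h, fun h => h.numIso⟩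
  · have h01 : (∀ X Y : 𝒱.Obj, R X Y → NumIsom C X Y) ↔ ∀ X Y : 𝒱.Obj, R X Y → NumIso C X Y :=
      forall₃_congr fun X Y h => numIsom_iff (hR.dim_eq h)
    have h02 : (∀ X Y : 𝒱.Obj, R X Y → NumIso C X Y) ↔
        ∀ X Y : 𝒱.Obj, R X Y → ∀ m : ℕ, X.dim = 2 * m → rho C X m = rho C Y m :=
      (tfae_rel hR hcore hreg hfin).out 0 2
    refine ⟨fun d hmid X Y h hX => (numIsom_iff (hR.dim_eq h)).2
      (numIso_of_mid hR hcore hreg hfin d hmid h hX), ?_, fun hK => ?_⟩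
    · rw [h01]
      exact tfae_rel hR hcore hreg hfin
    · rw [← h02]
      exact ⟨fun h X Y hXY => (h X Y hXY).numIso, fun h X Y hXY =>
        lift k 𝒱 C (nz H).ne X Y (hR.dim_eq hXY) (hK X) (hK Y) (h X Y hXY)⟩

end Pool.Agent.P8H64.OO
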