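import Pool.Agent.P8H64.OO.Main

/-!
# The two definitions of the rank
-/

set_option autoImplicit false

open CategoryTheory AlgebraicGeometry Module

universe u v w

namespace Pool.Agent.P8H64.OO

open Pool.Agent.H914 Pool.Agent.H914.VarClass Pool.Agent.H914.VarClass.Obj Pool.Agent.W492.BB
  Pool.Agent.W550.Corr Pool.Agent.TH133 Pool.Agent.TH829.Prime Pool.Agent.TH829.Kim

variable {k : Type u} [Field k] {𝒱 : VarClass k} {C : TheoryData.{u, v, 0} 𝒱 ℚ}

lemma indep_iff {X : 𝒱.Obj} {i : ℤ} {n : ℕ} (x : Fin n → C.A X) (hx : ∀ j, C.Deg i (x j)) :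
    Indep C i x ↔ LinearIndependent ℚ (fun j => cls (C := C) (X := X) (i := i) ⟨x j, hx j⟩) := by
  have key : ∀ c : Fin n → ℚ, NumTrivial C i (∑ j, c j • x j) ↔
      ∑ j, c j • cls (C := C) (X := X) (i := i) ⟨x j, hx j⟩ = 0 := by
    intro c
    have h1 : ∑ j, c j • cls (C := C) (X := X) (i := i) ⟨x j, hx j⟩ =
        cls (∑ j, c j • (⟨x j, hx j⟩ : C.gr X i)) := by
      change _ = Submodule.mkQ _ (∑ j, c j • (⟨x j, hx j⟩ : C.gr X i))
      rw [map_sum]
      exact Finset.sum_congr rfl fun j _ => rfl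
    have h2 : ((∑ j, c j • (⟨x j, hx j⟩ : C.gr X i) : C.gr X i) : C.A X) = ∑ j, c j • x j := by
      rw [Submodule.coe_sum]
      rfl
    have h3 : (0 : NumSpace C X i) = cls 0 := rfl
    rw [h1, h3, cls_eq, h2, Submodule.coe_zero, sub_zero, mem_numFam]
    exact ⟨fun h => ⟨Submodule.sum_mem _ fun j _ => Submodule.smul_mem _ _ (hx j), h⟩, fun h => h.2⟩
  rw [Fintype.linearIndependent_iff]
  constructor
  · rintro ⟨_, h⟩ c hc j
    exact congrFun (h c ((key c).2 hc)) j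
  · intro h
    exact ⟨hx, fun c hc => funext fun j => h c ((key c).1 hc) j⟩

lemma indep_le (hfin : IsFin C) {X : 𝒱.Obj} {i : ℤ} {n : ℕ} {x : Fin n → C.A X}
    (h : Indep C i x) : n ≤ rho C X i := by
  have := hfin X i
  have h1 := (indep_iff x h.1).1 h
  have h2 := h1.fintype_card_le_finrank
  rwa [Fintype.card_fin] at h2

lemma exists_indep (X : 𝒱.Obj) (i : ℤ) : ∃ x : Fin (rho C X i) → C.A X, Indep C i x := by
  obtain ⟨y, hy⟩ := exists_linearIndependent_of_le_finrank (R := ℚ) (M := NumSpace C X i)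
    (le_refl (rho C X i))
  choose z hz using fun j => cls_surj (y j)
  refine ⟨fun j => (z j).1, (indep_iff (fun j => (z j).1) fun j => (z j).2).2 ?_⟩
  have e : (fun j => cls (C := C) (X := X) (i := i) ⟨(z j).1, (z j).2⟩) = y := funext hz
  rw [e]
  exact hy

lemma rk_eq (hfin : IsFin C) (X : 𝒱.Obj) (i : ℤ) : rk C X i = rho C X i := by
  apply le_antisymm
  · exact csSup_le' fun n ⟨x, hx⟩ => indep_le hfin hx
  · exact le_csSup ⟨rho C X i, fun n ⟨x, hx⟩ => indep_le hfin hx⟩ (exists_indep X i)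

lemma numIsom_iff [hC : IsChowProj C] {X Y : 𝒱.Obj} (h : X.dim = Y.dim) :
    NumIsom C X Y ↔ NumIso C X Y := by
  constructor
  · rintro ⟨Z, Z', hZ, hZ', h1, h2⟩
    refine ⟨Z, Z', hZ, hZ', ⟨Submodule.sub_mem _ ?_ (dg_mem C X), h1⟩,
      ⟨Submodule.sub_mem _ ?_ (dg_mem C Y), h2⟩⟩
    · exact comp_memd rfl h.symm hZ (by rw [h]; exact hZ')
    · exact comp_memd rfl h hZ' (by rw [← h]; exact hZ)
  · rintro ⟨Z, Z', hZ, hZ', h1, h2⟩
    exact ⟨Z, Z', hZ, hZ', h1.2, h2.2⟩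

end Pool.Agent.P8H64.OO
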