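import Pool.Agent.P8H64.OO.Conv

/-!
# Project AR (asymptotic version of OO): statements of the packages

Deliver `theorem cell : S_CELL` in `Pool/Agent/P8H64/OO/Cell.lean` and `theorem grow : S_GROW` in
`Pool/Agent/P8H64/OO/Grow.lean`.
-/

set_option autoImplicit false

open CategoryTheory AlgebraicGeometry

universe u v w

namespace Pool.Agent.P8H64.OO

open Pool.Agent.H914 Pool.Agent.H914.VarClass Pool.Agent.H914.VarClass.Obj Pool.Agent.W492.BB
  Pool.Agent.W550.Corr Pool.Agent.TH133 Pool.Agent.TH829.Prime Pool.Agent.TH829.Kim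

variable {k : Type u} [Field k] {𝒱 : VarClass k}

/-- `P` is a surface with the Chow motive `1 + r L + L²`, for example the projective plane blown up
in `r - 1` rational points: the diagonal is `x × 1 + 1 × x + ∑ a_s × b_s` with a zero-cycle `x` of
degree one and divisor classes `a_s`, `b_s` (`s = 1, …, r`) with intersection numbers
`(a_s, b_t) = δ_{st}`. -/
structure IsRationalSurface (C : TheoryData.{u, v, 0} 𝒱 ℚ) (P : 𝒱.Obj) (r : ℕ) : Prop where
  dim : P.dim = 2
  diag : ∃ (x : C.A P) (a b : Fin r → C.A P), C.Deg 2 x ∧ HasDegree C x 1 ∧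
    (∀ s, C.Deg 1 (a s) ∧ C.Deg 1 (b s)) ∧
    (∀ s t, HasDegree C (C.mul (a s) (b t)) (if s = t then 1 else 0)) ∧
    dg C P = C.ext x 1 + C.ext 1 x + ∑ s, C.ext (a s) (b s)

/-- **CELL**. The ranks of the product with a rational surface.

Proof. The linear map `CH^i(X) × CH^(i-1)(X)^r × CH^(i-2)(X) → CH^i(X × P)`,
`(u, v, w) ↦ u × 1 + ∑ v_s × b_s + w × x`, has the inverse
`z ↦ (p_*(z · q^* x), (p_*(z · q^* a_s))_s, p_* z)` (`p : X × P → X`): the composition on `X × P` is
the action of `id × (the transpose of the) diagonal`, `z = ∑ …` by the decomposition of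
`dg C P` (the class `p^*-pull-back` of the diagonal: `extR (dg C P) X z = z`, `extR_dg`-like lemmas,
`extR_ext`, `extR` of an external product `a × b` is `z ↦ p^* p_*(z · q^* a) · q^* b`); the other
composition by the intersection numbers (`HasDegree`: `p_* q^* y = deg(y)`; `p_* q^* y = 0` for `y`
of degree `< 2`, negative degrees). Both maps preserve numerical triviality (`num_adq`: numerical
equivalence is stable under pull-backs, push-forwards, products; for the components use
`num_adq.mul_mem`, `push_mem`), so they induce mutually inverse maps modulo numerical equivalence,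
`NumSpace C (X.prod P) i ≃ NumSpace C X i × (Fin r → NumSpace C X (i - 1)) × NumSpace C X (i - 2)`,
and `rho` is additive (finite-dimensional by `hfin`). -/
def S_CELL : Prop := ∀ (k : Type u) [Field k] (𝒱 : VarClass k) (C : TheoryData.{u, v, 0} 𝒱 ℚ)
  [IsChowProj C] [NZ C], IsFin C → ∀ (X P : 𝒱.Obj) (r : ℕ), IsRationalSurface C P r → ∀ i : ℤ,
    rho C (X.prod P) i = rho C X i + r * rho C X (i - 1) + rho C X (i - 2)

/-- **GROW** (arithmetic, Mathlib only). If `a 0` is bounded by `B` and
`a (n+1) i = a n i + r a n (i-1) + a n (i-2)`, then `r^n a_0(i-n) ≤ a_n(i) ≤ r^n a_0(i-n) + E r^(n-1)`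
with `E` depending only on `n` and `B`.

Proof. Induction on `n` with `E_0 = 0`, `E_1 = 2B`, `E_{n+1} = 3 E_n + 2 B` (`r ≥ 1`), using
`a_n(i) ≤ r^n (B + E_n)`. The inequality is written without division: `r * a_n(i) ≤ ...`. -/
def S_GROW : Prop := ∀ (n B : ℕ), ∃ E : ℕ, ∀ (r : ℕ) (a : ℕ → ℤ → ℕ), 1 ≤ r →
  (∀ i, a 0 i ≤ B) →
  (∀ m i, a (m + 1) i = a m i + r * a m (i - 1) + a m (i - 2)) →
  ∀ i : ℤ, r ^ n * a 0 (i - n) ≤ a n i ∧ r * a n i ≤ r ^ (n + 1) * a 0 (i - n) + E * r ^ n

end Pool.Agent.P8H64.OO
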