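import Pool.Agent.N174.OV.Main

/-!
# Numerical motives and the middle Picard number: definitions
-/

set_option autoImplicit false

open CategoryTheory AlgebraicGeometry

universe u v w

namespace Pool.Agent.P8H64.OO

open Pool.Agent.H914 Pool.Agent.H914.VarClass Pool.Agent.H914.VarClass.Obj Pool.Agent.W492.BB
  Pool.Agent.W550.Corr Pool.Agent.TH133 Pool.Agent.TH829.Prime Pool.Agent.TH829.Kim

variable {k : Type u} [Field k] {𝒱 : VarClass k}

/-- The space `N^i(X)` of the cycles of codimension `i` on `X` with rational coefficients modulo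
numerical equivalence. -/
abbrev NumSpace (C : TheoryData.{u, v, 0} 𝒱 ℚ) (X : 𝒱.Obj) (i : ℤ) : Type _ :=
  C.gr X i ⧸ (numFam C X i).comap (C.gr X i).subtype

/-- The rank `ρ_i(X)` of the group of cycles of codimension `i` on `X` modulo numerical
equivalence (`ρ_1(X)` is the Picard number). -/
noncomputable def rho (C : TheoryData.{u, v, 0} 𝒱 ℚ) (X : 𝒱.Obj) (i : ℤ) : ℕ :=
  Module.finrank ℚ (NumSpace C X i)

/-- The motives of `X` and `Y` modulo numerical equivalence are isomorphic: there are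
correspondences `Z ∈ CH^(dim X)(X × Y)` and `Z' ∈ CH^(dim Y)(Y × X)` which are inverse to each other
modulo numerical equivalence. -/
def NumIso (C : TheoryData.{u, v, 0} 𝒱 ℚ) (X Y : 𝒱.Obj) : Prop :=
  ∃ (Z : C.A (X.prod Y)) (Z' : C.A (Y.prod X)), C.Deg X.dim Z ∧ C.Deg Y.dim Z' ∧
    C.comp Z Z' - dg C X ∈ numFam C (X.prod X) X.dim ∧
    C.comp Z' Z - dg C Y ∈ numFam C (Y.prod Y) Y.dim

/-- The Chow motives of `X` and `Y` are isomorphic: there are correspondences
`Z ∈ CH^(dim X)(X × Y)` and `Z' ∈ CH^(dim Y)(Y × X)` which are inverse to each other. -/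
def ChowIso (C : TheoryData.{u, v, 0} 𝒱 ℚ) (X Y : 𝒱.Obj) : Prop :=
  ∃ (Z : C.A (X.prod Y)) (Z' : C.A (Y.prod X)), C.Deg X.dim Z ∧ C.Deg Y.dim Z' ∧
    C.comp Z Z' = dg C X ∧ C.comp Z' Z = dg C Y

/-- A Weil cohomology theory in the sense of `IsWeilProj` whose cohomology rings are
graded-commutative. -/
class IsWeilComm {C : TheoryData.{u, v, 0} 𝒱 ℚ} {K : Type w} [Field K]
    (H : WeilTheoryData.{u, v, w} C K) : Prop extends IsWeilProj H where
  comm_even : ∀ {X : 𝒱.Obj} {i j : ℤ} {a b : H.A X}, H.Deg i a → H.Deg j b → Even (i * j) →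
    a * b = b * a
  comm_odd : ∀ {X : 𝒱.Obj} {i j : ℤ} {a b : H.A X}, H.Deg i a → H.Deg j b → Odd (i * j) →
    a * b = -(b * a)

end Pool.Agent.P8H64.OO
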