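import Pool.Agent.P8H64.OO.GrowCore
import Pool.Agent.P8H64.OO.AsyStm

set_option autoImplicit false

namespace Pool.Agent.P8H64.OO

theorem grow : S_GROW := grow_core

end Pool.Agent.P8H64.OO
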