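import Mathlib

set_option autoImplicit false

namespace Pool.Agent.P8H64.OO

theorem grow_core (n B : ℕ) : ∃ E : ℕ, ∀ (r : ℕ) (a : ℕ → ℤ → ℕ), 1 ≤ r →
  (∀ i, a 0 i ≤ B) →
  (∀ m i, a (m + 1) i = a m i + r * a m (i - 1) + a m (i - 2)) →
  ∀ i : ℤ, r ^ n * a 0 (i - n) ≤ a n i ∧ r * a n i ≤ r ^ (n + 1) * a 0 (i - n) + E * r ^ n := by
  induction n with
  | zero =>
    refine ⟨0, fun r a _ _ _ i => ?_⟩
    simp
  | succ n ih =>
    obtain ⟨E, hE⟩ := ih
    refine ⟨3 * E + 2 * B, fun r a hr hB hrec i => ?_⟩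
    have key := hE r a hr hB hrec
    have e1 : i - 1 - (n : ℤ) = i - ((n + 1 : ℕ) : ℤ) := by push_cast; ring
    obtain ⟨-, h0⟩ := key i
    obtain ⟨h1l, h1⟩ := key (i - 1)
    obtain ⟨-, h2⟩ := key (i - 2)
    rw [e1] at h1l h1
    have hb0 := hB (i - n)
    have hb2 := hB (i - 2 - n)
    have hp : r ^ n ≤ r ^ (n + 1) := Nat.pow_le_pow_right hr (Nat.le_succ n)
    constructor
    · rw [hrec n i]
      calc r ^ (n + 1) * a 0 (i - ((n + 1 : ℕ) : ℤ))
          = r * (r ^ n * a 0 (i - ((n + 1 : ℕ) : ℤ))) := by rw [pow_succ]; ring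
        _ ≤ r * a n (i - 1) := Nat.mul_le_mul_left r h1l
        _ ≤ a n i + r * a n (i - 1) + a n (i - 2) := by omega
    · rw [hrec n i]
      have A0 : r * a n i ≤ r ^ (n + 1) * B + E * r ^ (n + 1) :=
        h0.trans (Nat.add_le_add (Nat.mul_le_mul_left _ hb0) (Nat.mul_le_mul_left _ hp))
      have A2 : r * a n (i - 2) ≤ r ^ (n + 1) * B + E * r ^ (n + 1) :=
        h2.trans (Nat.add_le_add (Nat.mul_le_mul_left _ hb2) (Nat.mul_le_mul_left _ hp))
      have A1 : r * (r * a n (i - 1)) ≤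
          r ^ (n + 1 + 1) * a 0 (i - ((n + 1 : ℕ) : ℤ)) + E * r ^ (n + 1) := by
        calc r * (r * a n (i - 1))
            ≤ r * (r ^ (n + 1) * a 0 (i - ((n + 1 : ℕ) : ℤ)) + E * r ^ n) :=
              Nat.mul_le_mul_left r h1
          _ = r ^ (n + 1 + 1) * a 0 (i - ((n + 1 : ℕ) : ℤ)) + E * r ^ (n + 1) := by
              ring
      calc r * (a n i + r * a n (i - 1) + a n (i - 2))
          = r * a n i + r * (r * a n (i - 1)) + r * a n (i - 2) := by ring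
        _ ≤ (r ^ (n + 1) * B + E * r ^ (n + 1)) +
            (r ^ (n + 1 + 1) * a 0 (i - ((n + 1 : ℕ) : ℤ)) + E * r ^ (n + 1)) +
            (r ^ (n + 1) * B + E * r ^ (n + 1)) := Nat.add_le_add (Nat.add_le_add A0 A1) A2
        _ = r ^ (n + 1 + 1) * a 0 (i - ((n + 1 : ℕ) : ℤ)) + (3 * E + 2 * B) * r ^ (n + 1) := by
            ring

end Pool.Agent.P8H64.OO
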