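import Pool.Agent.P8H64.OO.Defs

/-!
# Ranks of the groups of cycles modulo numerical equivalence, numerical motives
-/

set_option autoImplicit false

open CategoryTheory AlgebraicGeometry

universe u v w

namespace Pool.Agent.P8H64.OO

open Pool.Agent.H914 Pool.Agent.H914.VarClass Pool.Agent.H914.VarClass.Obj Pool.Agent.W492.BB
  Pool.Agent.W550.Corr Pool.Agent.TH829.Prime

variable {k : Type u} [Field k] {𝒱 : VarClass k}

/-- The classes `x 0, …, x (n-1)` of codimension `i` on `X` are linearly independent modulo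
numerical equivalence. -/
def Indep (C : TheoryData.{u, v, 0} 𝒱 ℚ) {X : 𝒱.Obj} (i : ℤ) {n : ℕ} (x : Fin n → C.A X) : Prop :=
  (∀ j, C.Deg i (x j)) ∧ ∀ c : Fin n → ℚ, NumTrivial C i (∑ j, c j • x j) → c = 0

/-- The rank `ρ_i(X)` of the group of cycles of codimension `i` on `X` modulo numerical
equivalence: the largest number `n` such that there are `n` classes of codimension `i` which are
linearly independent modulo numerical equivalence. -/
noncomputable def rk (C : TheoryData.{u, v, 0} 𝒱 ℚ) (X : 𝒱.Obj) (i : ℤ) : ℕ :=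
  sSup {n : ℕ | ∃ x : Fin n → C.A X, Indep C i x}

/-- The motives of `X` and `Y` modulo numerical equivalence are isomorphic: there are
correspondences `Z ∈ CH^(dim X)(X × Y)` and `Z' ∈ CH^(dim Y)(Y × X)` which are inverse to each other
modulo numerical equivalence. -/
def NumIsom (C : TheoryData.{u, v, 0} 𝒱 ℚ) (X Y : 𝒱.Obj) : Prop :=
  ∃ (Z : C.A (X.prod Y)) (Z' : C.A (Y.prod X)), C.Deg X.dim Z ∧ C.Deg Y.dim Z' ∧
    NumTrivial C X.dim (C.comp Z Z' - dg C X) ∧ NumTrivial C Y.dim (C.comp Z' Z - dg C Y)

/-- An equivalence relation between varieties of the same dimension which is stable under products,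
for example derived equivalence. -/
structure IsStable (R : 𝒱.Obj → 𝒱.Obj → Prop) : Prop where
  equivalence : Equivalence R
  dim_eq : ∀ {X Y : 𝒱.Obj}, R X Y → X.dim = Y.dim
  prod : ∀ {X Y X' Y' : 𝒱.Obj}, R X Y → R X' Y' → R (X.prod X') (Y.prod Y')

end Pool.Agent.P8H64.OO
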