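import Pool.Agent.P8H64.OO.Rank
import Pool.Agent.P8H64.OO.Pub

/-!
# One number decides whether numerical motives are isomorphic
-/

set_option autoImplicit false

open CategoryTheory AlgebraicGeometry Module

universe u v w

namespace Pool.Agent.P8H64.OO

open Pool.Agent.H914 Pool.Agent.H914.VarClass Pool.Agent.H914.VarClass.Obj Pool.Agent.W492.BB
  Pool.Agent.W550.Corr Pool.Agent.TH133 Pool.Agent.TH829.Prime Pool.Agent.TH829.Kim

variable {k : Type u} [Field k] {𝒱 : VarClass k} {C : TheoryData.{u, v, 0} 𝒱 ℚ}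
  [hC : IsChowProj C] [hN : NZ C]

lemma numIso_of_iso {d : ℕ} {X Y : NM C d} (h : Nonempty (X ≅ Y)) : NumIso C X.X Y.X := by
  obtain ⟨e⟩ := h
  obtain ⟨Z, hZ⟩ := cls_surj e.hom
  obtain ⟨Z', hZ'⟩ := cls_surj e.inv
  have h1 : compN X.hd Y.hd e.hom e.inv = cls ⟨dg C X.X, _⟩ := e.hom_inv_id
  have h2 : compN Y.hd X.hd e.inv e.hom = cls ⟨dg C Y.X, _⟩ := e.inv_hom_id
  rw [← hZ, ← hZ', compN_cls] at h1 h2
  refine ⟨Z.1, Z'.1, ?_, ?_, ?_, ?_⟩
  · rw [TheoryData.Deg, X.hd]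
    exact Z.2
  · rw [TheoryData.Deg, Y.hd]
    exact Z'.2
  · rw [X.hd]
    exact cls_eq.1 h1
  · rw [Y.hd]
    exact cls_eq.1 h2

lemma iso_of_numIso {d : ℕ} {X Y : NM C d} (h : NumIso C X.X Y.X) : Nonempty (X ≅ Y) := by
  obtain ⟨Z, Z', hZ, hZ', h1, h2⟩ := h
  rw [TheoryData.Deg, X.hd] at hZ
  rw [TheoryData.Deg, Y.hd] at hZ'
  rw [X.hd] at h1
  rw [Y.hd] at h2
  exact ⟨{ hom := cls ⟨Z, hZ⟩
           inv := cls ⟨Z', hZ'⟩
           hom_inv_id := by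
             change compN X.hd Y.hd _ _ = cls ⟨dg C X.X, _⟩
             rw [compN_cls]
             exact cls_eq.2 h1
           inv_hom_id := by
             change compN Y.hd X.hd _ _ = cls ⟨dg C Y.X, _⟩
             rw [compN_cls]
             exact cls_eq.2 h2 }⟩

/-- The category of numerical motives is von Neumann regular. -/
def IsRegular (C : TheoryData.{u, v, 0} 𝒱 ℚ) : Prop :=
  ∀ (X Y : 𝒱.Obj) (f : C.A (X.prod Y)), X.dim = Y.dim → f ∈ C.gr (X.prod Y) X.dim →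
    ∃ g ∈ C.gr (Y.prod X) Y.dim, C.comp (C.comp f g) f - f ∈ numFam C (X.prod Y) X.dim

/-- The ranks of the groups of cycles modulo numerical equivalence are finite. -/
def IsFin (C : TheoryData.{u, v, 0} 𝒱 ℚ) : Prop :=
  ∀ (X : 𝒱.Obj) (i : ℤ), Module.Finite ℚ (NumSpace C X i)

theorem core_num (hcore : S_CORE.{u + 1, v}) (hreg : IsRegular C) (hfin : IsFin C) {X Y : 𝒱.Obj}
    (hXY : X.dim = Y.dim) :
    2 * rho C (X.prod Y) X.dim ≤ rho C (X.prod X) X.dim + rho C (Y.prod Y) Y.dim ∧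
      (2 * rho C (X.prod Y) X.dim = rho C (X.prod X) X.dim + rho C (Y.prod Y) Y.dim ↔
        NumIso C X Y) := by
  obtain ⟨d, hd⟩ : ∃ d : ℕ, X.dim = d := ⟨_, rfl⟩
  have hd' : Y.dim = d := by rw [← hXY, hd]
  rw [hd, hd']
  let x : NM C d := ⟨X, hd⟩
  let y : NM C d := ⟨Y, hd'⟩
  have hc := hcore (NM C d) (fun A B => hfin (A.X.prod B.X) d) (by
    intro A B f
    obtain ⟨f, rfl⟩ := cls_surj f
    obtain ⟨g, hg, h⟩ := hreg A.X B.X f.1 (by rw [A.hd, B.hd]) (by rw [A.hd]; exact f.2)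
    rw [B.hd] at hg
    rw [A.hd] at h
    refine ⟨cls ⟨g, hg⟩, ?_⟩
    rw [← Category.assoc]
    change compN A.hd A.hd (compN A.hd B.hd (cls f) (cls ⟨g, hg⟩)) (cls f) = cls f
    rw [compN_cls, compN_cls]
    exact cls_eq.2 h) x y
  have e1 : finrank ℚ (x ⟶ y) = rho C (X.prod Y) d := rfl
  have e2 : finrank ℚ (y ⟶ x) = rho C (X.prod Y) d := rho_swap Y X d
  have e3 : finrank ℚ (x ⟶ x) = rho C (X.prod X) d := rfl
  have e4 : finrank ℚ (y ⟶ y) = rho C (Y.prod Y) d := rfl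
  rw [e1, e2, e3, e4] at hc
  refine ⟨by omega, fun h => numIso_of_iso (X := x) (Y := y) (hc.2 (by omega)), fun h => ?_⟩
  obtain ⟨e⟩ := iso_of_numIso (X := x) (Y := y) h
  have h1 := (Linear.homCongr ℚ (Iso.refl x) e).finrank_eq
  have h2 := (Linear.homCongr ℚ e (Iso.refl y)).finrank_eq
  rw [e3, e1] at h1
  rw [e1, e4] at h2
  omega

omit hC hN in
lemma rho_cast (X : 𝒱.Obj) {i j : ℤ} (h : i = j) : rho C X i = rho C X j := by rw [h]

section rel

variable {R : 𝒱.Obj → 𝒱.Obj → Prop} (hR : IsStable R) (hcore : S_CORE.{u + 1, v})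
  (hreg : IsRegular C) (hfin : IsFin C)

include hR hcore hreg hfin

lemma numIso_of_le {X Y : 𝒱.Obj} (h : R X Y)
    (h1 : rho C (X.prod X) X.dim ≤ rho C (X.prod Y) X.dim)
    (h2 : rho C (Y.prod Y) Y.dim ≤ rho C (Y.prod X) Y.dim) : NumIso C X Y := by
  have hd := hR.dim_eq h
  obtain ⟨h3, h4⟩ := core_num hcore hreg hfin hd
  apply h4.1
  have h5 : rho C (Y.prod X) Y.dim = rho C (X.prod Y) X.dim := by
    rw [rho_swap Y X]
    exact rho_cast _ (by rw [hd])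
  omega

lemma numIso_of_mid (d : ℕ)
    (hmid : ∀ Z W : 𝒱.Obj, R Z W → Z.dim = 2 * d → rho C Z d = rho C W d)
    {X Y : 𝒱.Obj} (h : R X Y) (hX : X.dim = d) : NumIso C X Y := by
  have hd := hR.dim_eq h
  have hY : Y.dim = d := by rw [← hd, hX]
  have h1 := hmid _ _ (hR.prod (hR.equivalence.refl X) h) (by rw [dim_prod, hX]; ring)
  have h2 := hmid _ _ (hR.prod (hR.equivalence.refl Y) (hR.equivalence.symm h))
    (by rw [dim_prod, hY]; ring)
  refine numIso_of_le hR hcore hreg hfin h ?_ ?_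
  · rw [hX]
    exact h1.le
  · rw [hY]
    exact h2.le

lemma tfae_rel : List.TFAE [∀ X Y : 𝒱.Obj, R X Y → NumIso C X Y,
    ∀ X Y : 𝒱.Obj, R X Y → ∀ i : ℤ, rho C X i = rho C Y i,
    ∀ X Y : 𝒱.Obj, R X Y → ∀ m : ℕ, X.dim = 2 * m → rho C X m = rho C Y m,
    ∀ X Y : 𝒱.Obj, R X Y → rho C (X.prod X) X.dim ≤ rho C (X.prod Y) X.dim] := by
  tfae_have 1 → 2 := fun h X Y hXY i => rho_eq (h X Y hXY) i
  tfae_have 2 → 3 := fun h X Y hXY m _ => h X Y hXY m
  tfae_have 3 → 4 := by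
    intro h X Y hXY
    have h1 := h _ _ (hR.prod (hR.equivalence.refl X) hXY) X.dim (by rw [dim_prod]; ring)
    exact h1.le
  tfae_have 4 → 1 := fun h X Y hXY => numIso_of_le hR hcore hreg hfin hXY (h X Y hXY)
    (h Y X (hR.equivalence.symm hXY))
  tfae_finish

end rel

omit hC hN in
/-- Isomorphic Chow motives are isomorphic modulo numerical equivalence. -/
lemma ChowIso.numIso {X Y : 𝒱.Obj} (h : ChowIso C X Y) : NumIso C X Y := by
  obtain ⟨Z, Z', hZ, hZ', h1, h2⟩ := h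
  refine ⟨Z, Z', hZ, hZ', ?_, ?_⟩
  · rw [h1, sub_self]
    exact Submodule.zero_mem _
  · rw [h2, sub_self]
    exact Submodule.zero_mem _

end Pool.Agent.P8H64.OO
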