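import Pool.Agent.P8H64.OO.Stm

/-!
# The category of the motives of varieties of dimension `d` modulo numerical equivalence
-/

set_option autoImplicit false

open CategoryTheory AlgebraicGeometry

universe u v w

namespace Pool.Agent.P8H64.OO

open Pool.Agent.H914 Pool.Agent.H914.VarClass Pool.Agent.H914.VarClass.Obj Pool.Agent.W492.BB
  Pool.Agent.W550.Corr Pool.Agent.TH133 Pool.Agent.TH829.Prime Pool.Agent.TH829.Kim

variable {k : Type u} [Field k] {𝒱 : VarClass k}

/-- Fundamental classes are not zero. -/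
class NZ (C : TheoryData.{u, v, 0} 𝒱 ℚ) : Prop where
  ne : ∀ X : 𝒱.Obj, (1 : C.A X) ≠ 0

section

variable {C : TheoryData.{u, v, 0} 𝒱 ℚ} [hC : IsChowProj C] [hN : NZ C] {X Y Z W : 𝒱.Obj}

include hC hN

lemma num_adq : IsAdequate C (numFam C) := isAdequate_numFam hN.ne

omit hN in
lemma comp_memd {d : ℕ} (hX : X.dim = d) (hY : Y.dim = d) {Γ : C.A (X.prod Y)}
    {Δ : C.A (Y.prod Z)} (hΓ : Γ ∈ C.gr (X.prod Y) d) (hΔ : Δ ∈ C.gr (Y.prod Z) d) :
    C.comp Γ Δ ∈ C.gr (X.prod Z) d := by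
  have h := comp_mem C (e := 0) (e' := 0) (Γ := Γ) (Δ := Δ) (by rwa [add_zero, hX])
    (by rwa [add_zero, hY])
  rwa [add_zero, add_zero, hX] at h

lemma num_comp_left {d : ℕ} (_hX : X.dim = d) (hY : Y.dim = d) {Γ : C.A (X.prod Y)}
    {Δ : C.A (Y.prod Z)} (hΓ : Γ ∈ numFam C (X.prod Y) d) (hΔ : Δ ∈ C.gr (Y.prod Z) d) :
    C.comp Γ Δ ∈ numFam C (X.prod Z) d := by
  have h := num_adq.push_mem (t13 X Y Z) (num_adq.mul_mem' (C.pull_mem (t23 X Y Z) hΔ)
    (num_adq.pull_mem (fst (X.prod Y) Z) hΓ))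
  refine num_adq.congr ?_ h
  simp only [dim_prod, hY]
  push_cast
  ring

lemma num_comp_right {d : ℕ} (_hX : X.dim = d) (hY : Y.dim = d) {Γ : C.A (X.prod Y)}
    {Δ : C.A (Y.prod Z)} (hΓ : Γ ∈ C.gr (X.prod Y) d) (hΔ : Δ ∈ numFam C (Y.prod Z) d) :
    C.comp Γ Δ ∈ numFam C (X.prod Z) d := by
  have h := num_adq.push_mem (t13 X Y Z) (num_adq.mul_mem (num_adq.pull_mem (t23 X Y Z) hΔ)
    (C.pull_mem (fst (X.prod Y) Z) hΓ))
  refine num_adq.congr ?_ h
  simp only [dim_prod, hY]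
  push_cast
  ring

end

variable {C : TheoryData.{u, v, 0} 𝒱 ℚ} {d : ℕ}

/-- The class of a correspondence modulo numerical equivalence. -/
def cls {X : 𝒱.Obj} {i : ℤ} (f : C.gr X i) : NumSpace C X i := Submodule.Quotient.mk f

lemma cls_surj {X : 𝒱.Obj} {i : ℤ} (f : NumSpace C X i) : ∃ g : C.gr X i, cls g = f :=
  Submodule.Quotient.mk_surjective _ f

lemma cls_eq {X : 𝒱.Obj} {i : ℤ} {f g : C.gr X i} :
    cls f = cls g ↔ (f : C.A X) - g ∈ numFam C X i :=
  Submodule.Quotient.eq _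

lemma cls_add {X : 𝒱.Obj} {i : ℤ} (f g : C.gr X i) : cls (f + g) = cls f + cls g := rfl

lemma cls_smul {X : 𝒱.Obj} {i : ℤ} (q : ℚ) (f : C.gr X i) : cls (q • f) = q • cls f := rfl

variable [hC : IsChowProj C] [hN : NZ C]

/-- Composition of correspondences modulo numerical equivalence. -/
noncomputable def compN {X Y Z : 𝒱.Obj} (hX : X.dim = d) (hY : Y.dim = d) :
    NumSpace C (X.prod Y) d → NumSpace C (Y.prod Z) d → NumSpace C (X.prod Z) d :=
  Quotient.map₂ (fun f g => ⟨C.comp f.1 g.1, comp_memd hX hY f.2 g.2⟩) (by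
    intro f f' hf g g' hg
    have hf' : f - f' ∈ (numFam C (X.prod Y) d).comap (C.gr (X.prod Y) d).subtype :=
      (Submodule.quotientRel_def _).1 hf
    have hg' : g - g' ∈ (numFam C (Y.prod Z) d).comap (C.gr (Y.prod Z) d).subtype :=
      (Submodule.quotientRel_def _).1 hg
    change (f : C.A (X.prod Y)) - f' ∈ numFam C (X.prod Y) d at hf'
    change (g : C.A (Y.prod Z)) - g' ∈ numFam C (Y.prod Z) d at hg'
    refine (Submodule.quotientRel_def _).2 ?_
    change C.comp f.1 g.1 - C.comp f'.1 g'.1 ∈ numFam C (X.prod Z) d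
    have e : C.comp f.1 g.1 - C.comp f'.1 g'.1 =
        C.comp (f.1 - f'.1) g.1 + C.comp f'.1 (g.1 - g'.1) := by
      rw [sub_comp, comp_sub]
      abel
    rw [e]
    exact Submodule.add_mem _ (num_comp_left hX hY hf' g.2) (num_comp_right hX hY f'.2 hg'))

lemma compN_cls {X Y Z : 𝒱.Obj} (hX : X.dim = d) (hY : Y.dim = d) (f : C.gr (X.prod Y) d)
    (g : C.gr (Y.prod Z) d) : compN hX hY (cls f) (cls g) =
      cls ⟨C.comp f.1 g.1, comp_memd hX hY f.2 g.2⟩ := rfl

/-- The objects of the category of numerical motives (of the varieties of dimension `d`). -/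
@[nolint unusedArguments]
structure NM (_C : TheoryData.{u, v, 0} 𝒱 ℚ) (d : ℕ) where
  /-- the variety -/
  X : 𝒱.Obj
  hd : X.dim = d

noncomputable instance : Category (NM C d) where
  Hom X Y := NumSpace C (X.X.prod Y.X) d
  id X := cls ⟨dg C X.X, by have := dg_mem C X.X; rwa [X.hd] at this⟩
  comp {X Y Z} f g := compN X.hd Y.hd f g
  id_comp {X Y} f := by
    obtain ⟨f, rfl⟩ := cls_surj f
    rw [compN_cls]
    congr 1
    exact Subtype.ext (dg_comp C f.1)
  comp_id {X Y} f := by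
    obtain ⟨f, rfl⟩ := cls_surj f
    rw [compN_cls]
    congr 1
    exact Subtype.ext (comp_dg C f.1)
  assoc {W X Y Z} f g h := by
    obtain ⟨f, rfl⟩ := cls_surj f
    obtain ⟨g, rfl⟩ := cls_surj g
    obtain ⟨h, rfl⟩ := cls_surj h
    rw [compN_cls, compN_cls, compN_cls, compN_cls]
    congr 1
    exact Subtype.ext (comp_assoc C f.1 g.1 h.1)

noncomputable instance : Preadditive (NM C d) where
  homGroup X Y := inferInstanceAs (AddCommGroup (NumSpace C (X.X.prod Y.X) d))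
  add_comp X Y Z f f' g := by
    change compN X.hd Y.hd _ _ = compN X.hd Y.hd _ _ + compN X.hd Y.hd _ _
    obtain ⟨f, rfl⟩ := cls_surj f
    obtain ⟨f', rfl⟩ := cls_surj f'
    obtain ⟨g, rfl⟩ := cls_surj g
    change compN X.hd Y.hd (cls (f + f')) (cls g) = _
    rw [compN_cls, compN_cls, compN_cls, ← cls_add]
    congr 1
    exact Subtype.ext (add_comp C f.1 f'.1 g.1)
  comp_add X Y Z f g g' := by
    change compN X.hd Y.hd _ _ = compN X.hd Y.hd _ _ + compN X.hd Y.hd _ _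
    obtain ⟨f, rfl⟩ := cls_surj f
    obtain ⟨g, rfl⟩ := cls_surj g
    obtain ⟨g', rfl⟩ := cls_surj g'
    change compN X.hd Y.hd (cls f) (cls (g + g')) = _
    rw [compN_cls, compN_cls, compN_cls, ← cls_add]
    congr 1
    exact Subtype.ext (comp_add C f.1 g.1 g'.1)

noncomputable instance : Linear ℚ (NM C d) where
  homModule X Y := inferInstanceAs (Module ℚ (NumSpace C (X.X.prod Y.X) d))
  smul_comp X Y Z q f g := by
    change compN X.hd Y.hd _ _ = q • compN X.hd Y.hd _ _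
    obtain ⟨f, rfl⟩ := cls_surj f
    obtain ⟨g, rfl⟩ := cls_surj g
    change compN X.hd Y.hd (cls (q • f)) (cls g) = _
    rw [compN_cls, compN_cls, ← cls_smul]
    congr 1
    refine Subtype.ext ?_
    change C.comp (q • f.1) g.1 = q • C.comp f.1 g.1
    simp only [← compL_apply, map_smul, LinearMap.smul_apply]
  comp_smul X Y Z f q g := by
    change compN X.hd Y.hd _ _ = q • compN X.hd Y.hd _ _
    obtain ⟨f, rfl⟩ := cls_surj f
    obtain ⟨g, rfl⟩ := cls_surj g
    change compN X.hd Y.hd (cls f) (cls (q • g)) = _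
    rw [compN_cls, compN_cls, ← cls_smul]
    congr 1
    refine Subtype.ext ?_
    change C.comp f.1 (q • g.1) = q • C.comp f.1 g.1
    simp only [← compL_apply, map_smul]

end Pool.Agent.P8H64.OO
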