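import Pool.Agent.P8H64.OO.Defs

/-!
# Project OO: statements of the packages

Each package `X` is to be handed in as `theorem x : S_X` (see the comments) in the file
`Pool/Agent/P8H64/OO/<Part>.lean`, importing `Pool.Agent.P8H64.OO.Stm` (or only Mathlib for LIN and
CORE, where the statement may simply be restated).
-/

set_option autoImplicit false

open CategoryTheory AlgebraicGeometry

universe u v w

namespace Pool.Agent.P8H64.OO

open Pool.Agent.H914 Pool.Agent.H914.VarClass Pool.Agent.H914.VarClass.Obj Pool.Agent.W492.BB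
  Pool.Agent.W550.Corr Pool.Agent.TH133 Pool.Agent.TH829.Prime Pool.Agent.TH829.Kim

/-- **LIN** (linear algebra, Mathlib only). If `P` commutes with `T` and `tr(P T^j) = 0` for all
`j ≥ r` then `tr(P T) = 0`.

Proof. Let `f ≠ 0` be the minimal (or characteristic) polynomial of `T`, `f = X^m g` with
`g(0) ≠ 0`. As `X^(r+m)` and `g` are coprime, `1 = a X^(r+m) + b g`. Then
`T = T * a(T) * T^(r+m) + T * b(T) * g(T)`. The trace of `P` times the first summand is a linear
combination of traces `tr(P T^j)`, `j ≥ r + m + 1`, hence zero. The second summand `N` satisfies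
`N^(m+1) = 0` (it is divisible by `T^m g(T) = f(T) = 0`), and commutes with `P`, so `P N` is
nilpotent and its trace is zero. -/
def S_LIN : Prop := ∀ (K : Type w) [Field K] (V : Type v) [AddCommGroup V] [Module K V]
  [Module.Finite K V] (P T : Module.End K V) (r : ℕ), Commute P T →
  (∀ j, r ≤ j → LinearMap.trace K V (P * T ^ j) = 0) → LinearMap.trace K V (P * T) = 0

/-- **CORE** (category theory, Mathlib only). Let `𝒞` be a `ℚ`-linear category with
finite-dimensional `Hom`s which is von Neumann regular. Then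
`dim Hom(X,Y) + dim Hom(Y,X) ≤ dim End X + dim End Y`, and in the case of equality `X ≅ Y`.

Proof. For endomorphisms `a : P ⟶ P`, `b : Q ⟶ Q` put
`τ(a, b) = trace of (u ↦ a ≫ u ≫ b) on Hom(P, Q)`; it is bilinear. For `f : X ⟶ Y`, `g : Y ⟶ X` one
has `τ(c, f ≫ g) = τ(c, g ≫ f)` (`c : P ⟶ P`; the traces of `u ↦ c ≫ u ≫ f ≫ g` on `Hom(P, X)` and
of `u ↦ c ≫ u ≫ g ≫ f` on `Hom(P, Y)`: use `trace (A ∘ B) = trace (B ∘ A)`) and similarly in the
first variable. If `a`, `b` are idempotents, the endomorphism is idempotent, so `τ(a, b)` is its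
rank, and `τ(1, 1) = dim Hom`.
Choose `f : X ⟶ Y`, `g : Y ⟶ X` with `f ≫ g ≫ f = f`, `g ≫ f ≫ g = g` and with `τ(1, f ≫ g)`
maximal (these are natural numbers at most `dim End X`; `f = g = 0` is allowed; if
`f ≫ h ≫ f = f` then `g = h ≫ f ≫ h` satisfies both). Put `e = f ≫ g`, `e' = g ≫ f`, `x = 1 - e`,
`y = 1 - e'`. If there were `h ≠ 0` with `x ≫ h ≫ y = h`, take `h₀` with `h ≫ h₀ ≫ h = h` and
`h' = y ≫ h₀ ≫ x`, `h'' = h' ≫ h ≫ h'`; then `f + h`, `g + h''` satisfy the two equations
(`f ≫ y = 0`, `x ≫ f = 0`, `y ≫ g = 0`, `g ≫ x = 0`) and `(f + h) ≫ (g + h'') = e + h ≫ h''` with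
`h ≫ h'' ≠ 0` idempotent orthogonal to `e`, contradicting maximality. So every `h : X ⟶ Y` with
`x ≫ h ≫ y = h` is zero, and by regularity also every `h : Y ⟶ X` with `y ≫ h ≫ x = h`; so
`τ(x, y) = 0 = τ(y, x)`. Since `1_X = e + x`, `1_Y = e' + y`, bilinearity and
`τ(·, e) = τ(·, e')`, `τ(e, ·) = τ(e', ·)` give
`dim End X + dim End Y - dim Hom(X,Y) - dim Hom(Y,X) = τ(x,x) + τ(y,y) - τ(x,y) - τ(y,x)
= τ(x,x) + τ(y,y) ≥ 0`; if it is zero then `x = 0` and `y = 0` (`x` is in the image of the
idempotent `u ↦ x ≫ u ≫ x`), so that `f`, `g` are inverse isomorphisms. -/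
def S_CORE : Prop := ∀ (𝒞 : Type u) [Category.{v} 𝒞] [Preadditive 𝒞] [Linear ℚ 𝒞],
  (∀ X Y : 𝒞, Module.Finite ℚ (X ⟶ Y)) →
  (∀ (X Y : 𝒞) (f : X ⟶ Y), ∃ g : Y ⟶ X, f ≫ g ≫ f = f) → ∀ X Y : 𝒞,
  Module.finrank ℚ (X ⟶ Y) + Module.finrank ℚ (Y ⟶ X) ≤
      Module.finrank ℚ (X ⟶ X) + Module.finrank ℚ (Y ⟶ Y) ∧
    (Module.finrank ℚ (X ⟶ Y) + Module.finrank ℚ (Y ⟶ X) =
      Module.finrank ℚ (X ⟶ X) + Module.finrank ℚ (Y ⟶ Y) → Nonempty (X ≅ Y))

section thy

/-- **STR** (Lefschetz trace formula). Let `H` be a graded-commutative Weil cohomology theory. Then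
`H(X)` is finite-dimensional, and there is an operator `P` of `H(X)` (equal to `(-1)^i` on `H^i(X)`)
which commutes with the action of the correspondences `z` of degree zero, with
`tr(P z_*) = deg(Δ^* z)`.

Proof. `H.eq_zero_of_act`, `H.act_add`, `act_dg`, `act_mem`, … are in `W492/BB/Real.lean`,
`W550/Corr/Basic.lean`, `TH133/Base.lean`; compare with `H914R2/WeilBasic.lean` (`trace_par_corr`),
where the same formula is proved in a slightly different setting. By the Kunneth formula
`H^(2d)(X × X)`, `d = dim X`, is spanned by the `p^* a · q^* b`, `a ∈ H^i(X)`, `b ∈ H^j(X)`,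
`i + j = 2d`. For `c ∈ H^l(X)`, `q^* b · p^* c = (-1)^(jl) p^* c · q^* b`, so
`act (p^* a q^* b) c = (-1)^(jl) q_*(p^*(a c)) · b`, which vanishes for `l ≠ j` (`q_* p^* (a c)` is
in degree `i + l - 2d`: it is zero for negative degree; for `l > j` one has `a c = 0` because
`H^m(X) = 0` for `m > 2d`: `gr_top`), and `q_* p^* x = λ(x) • 1` for `x ∈ H^(2d)(X)` (`gr_zero`).
So the operator has rank at most one and `tr(P · act) = (-1)^j (-1)^(j^2) λ(a b) = λ(a b)
= λ(Δ^*(p^* a q^* b))`. By linearity `tr(P · act Γ) • 1 = q_* p^* Δ^* Γ` for all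
`Γ ∈ H^(2d)(X × X)`. For `Γ = cl z` the right hand side is `cl(q_* p^* (Δ^* z)) = deg(Δ^* z)`
(`HasDegree`). Finite-dimensionality: the identity `act (cl (dg C X))` is a finite sum of operators
of rank at most one (degrees of `dg C X`: `dg_mem`, `cl_mem`). -/
def S_STR : Prop := ∀ (k : Type u) [Field k] (𝒱 : VarClass k) (C : TheoryData.{u, v, 0} 𝒱 ℚ)
  [IsChowProj C] (K : Type w) [Field K] (H : WeilTheoryData.{u, v, w} C K) [IsWeilComm H]
  (X : 𝒱.Obj), Module.Finite K (H.A X) ∧ ∃ P : Module.End K (H.A X),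
    (∀ z ∈ C.gr (X.prod X) X.dim, Commute P (H.actL (H.cl z))) ∧
    ∀ z ∈ C.gr (X.prod X) X.dim, ∀ q : ℚ, HasDegree C (C.pull (Obj.lift (𝟙 X) (𝟙 X)) z) q →
      LinearMap.trace K (H.A X) (P * H.actL (H.cl z)) = (q : K)

/-- **FIN**. Finite rank of the cycles modulo numerical equivalence.

Proof. For `i > dim X` or `i < 0` the space is zero (`IsChowProj.gr_top`, `gr_neg`). Choose
`w_1, …, w_m ∈ CH^(dim X - i)(X)` whose classes span the `K`-span of `cl(CH^(dim X - i)(X))` in the
finite-dimensional space `H(X)`. The map `CH^i(X) → ℚ^m`, `x ↦ (deg(x w_j))_j` (linear; degrees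
exist, `exists_hasDegree`, and are unique, `hasDegree_uniq`) has kernel the numerically trivial
classes: if `deg(x w_j) = 0` for all `j` and `w ∈ CH^(dim X - i)(X)`, then `cl w = ∑ c_j cl w_j`, and
`q_* p^* cl(x w) = ∑ c_j q_* p^* (cl(x w_j)) = 0` on `X × X`, so that the degree `q` of `x w` has
`q • 1 = cl(q_* p^*(x w)) = 0` in `H(X)`, whence `q = 0` (compare `hasDegree_of_cl` in
`N174/OV/Main.lean`). -/
def S_FIN : Prop := ∀ (k : Type u) [Field k] (𝒱 : VarClass k) (C : TheoryData.{u, v, 0} 𝒱 ℚ)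
  [IsChowProj C] (K : Type w) [Field K] (H : WeilTheoryData.{u, v, w} C K) [IsWeilProj H]
  (X : 𝒱.Obj), Module.Finite K (H.A X) → ∀ i : ℤ, Module.Finite ℚ (NumSpace C X i)

/-- **JAN** (Jannsen). If the trace of a correspondence which is nilpotent modulo numerical
equivalence is zero, then the category of numerical motives is von Neumann regular.

Proof. `isPrime_numFam hne` gives `hN : IsAdequate C (numFam C)`; let
`A = RP (numFam C) hN X = R0 C X ⧸ idl (numFam C) hN X` (`TH829/Kim/Quot.lean`), the ring of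
self-correspondences modulo numerical equivalence, with the trace `trP hne (numFam C) hN le_rfl X`.
(a) `A` is a finite-dimensional `ℚ`-algebra (`hfin` for `X × X`). (b) An element `a` of `A` with
`tr(a b) = 0` for all `b` is zero (`trL_mul`: `tr(a b)` is the intersection number of `b` and the
transpose of `a`, and every element of `CH^(dim X)(X × X)` is a `b`); nilpotent elements of `A`
have trace zero (`htr`). (c) So the Jacobson radical of `A`, which is nilpotent, is zero and `A` is a
semisimple ring. (d) Let `f : X → Y` be a correspondence of degree zero. The left ideal (in the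
order of maps) `I = {g ∘ f : g : Y → X}` of `A` is generated by an idempotent `e = g ∘ f`
(`IsSemisimpleRing.ideal_eq_span_idempotent` or similar), and `h e = h` for `h ∈ I` (mind the order
of multiplication: `toA (a * b) = C.comp (toA b) (toA a)` and `C.comp Γ Δ` is `Γ` followed by `Δ`, so
`a * b` is `a` after `b`). So `g' ∘ (f ∘ e - f)` is numerically trivial for all `g' : Y → X`, and
`f ∘ e - f`, that is `f ∘ g ∘ f - f`, is numerically trivial: the degree of the restriction of
`g' ∘ u` to the diagonal is the intersection number on `X × Y` of `u` and the transpose of `g'`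
(`trL_mul`, `ev_comp` treat the case `X = Y`; prove it for `X ≠ Y` in the same way). -/
def S_JAN : Prop := ∀ (k : Type u) [Field k] (𝒱 : VarClass k) (C : TheoryData.{u, v, 0} 𝒱 ℚ)
  [IsChowProj C] (hne : ∀ X : 𝒱.Obj, (1 : C.A X) ≠ 0),
  (∀ (X : 𝒱.Obj) (i : ℤ), Module.Finite ℚ (NumSpace C X i)) →
  (∀ (X : 𝒱.Obj) (a : R0 C X) (r : ℕ), toA (a ^ r) ∈ numFam C (X.prod X) X.dim →
    trL hne X a = 0) →
  ∀ (X Y : 𝒱.Obj) (f : C.A (X.prod Y)), X.dim = Y.dim → f ∈ C.gr (X.prod Y) X.dim →
    ∃ g ∈ C.gr (Y.prod X) Y.dim, C.comp (C.comp f g) f - f ∈ numFam C (X.prod Y) X.dim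

/-- **RANK**. Varieties with isomorphic numerical motives have the same ranks of cycle groups.

Proof. `act Z` maps `CH^i(X)` to `CH^i(Y)` (`act_mem'`), numerically trivial classes to numerically
trivial ones (`isPrime_numFam`: numerical equivalence is adequate; `act Γ x` is also numerically
trivial if `Γ` is), and `act Z' (act Z x) = act (comp Z Z') x = x + act (comp Z Z' - dg) x`
(`act_comp`, `act_dg`), so that it induces mutually inverse maps of the quotients. -/
def S_RANK : Prop := ∀ (k : Type u) [Field k] (𝒱 : VarClass k) (C : TheoryData.{u, v, 0} 𝒱 ℚ)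
  [IsChowProj C], (∀ X : 𝒱.Obj, (1 : C.A X) ≠ 0) → ∀ (X Y : 𝒱.Obj), X.dim = Y.dim →
    NumIso C X Y → ∀ i : ℤ, rho C X i = rho C Y i

/-- **LIFT**. For Kimura-finite motives, isomorphisms modulo numerical equivalence lift to
isomorphisms of Chow motives.

Proof. `comp Z Z' - dg C X` is numerically trivial, so it is in the radical of the trace form
(`InRad`, see `trL_of_num`, `adq_comp_left` in `TH829/Kim/Quot.lean`) of `R0 C X` (or of `Cor C X`),
and nilpotent by Kimura's theorem (`isNilpotent_of_inRad`, see `nil_of_kimura` and `exists_inv` in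
`N174/OV/Main.lean`). So `comp Z Z'` is invertible among the correspondences of degree zero of `X`,
and `comp Z' Z` is invertible for `Y`: `Z` has a right inverse and a left inverse, of degree zero,
which therefore coincide. -/
def S_LIFT : Prop := ∀ (k : Type u) [Field k] (𝒱 : VarClass k) (C : TheoryData.{u, v, 0} 𝒱 ℚ)
  [IsChowProj C], (∀ X : 𝒱.Obj, (1 : C.A X) ≠ 0) → ∀ (X Y : 𝒱.Obj), X.dim = Y.dim →
    IsKimuraFinite C (ratFam C) X → IsKimuraFinite C (ratFam C) Y → NumIso C X Y → ChowIso C X Y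

/-- **NIL** (from LIN and STR). The trace of a correspondence which is nilpotent modulo numerical
equivalence is zero.

Proof. Apply LIN to `T = H.actL (H.cl (toA a))` and `P` from STR: `T ^ j` is the action of
`toA (a ^ j)` (`cl_comp`, `act_comp`), so that `tr(P T^j) = trL hne X (a ^ j)` by STR
(`trL_spec`; `ev z (𝟙 X) (𝟙 X)` is by definition `C.pull (Obj.lift (𝟙 X) (𝟙 X)) z`), which is zero
for `j ≥ r` as `a ^ j = a ^ r * a ^ (j - r)` is numerically trivial (`adq_comp_left`, `trL_of_num`).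
So `(trL hne X a : K) = 0` and `K` has characteristic zero because it contains the image of `ℚ`
(`H.cl`; see `hasDegree_of_cl` in `N174/OV/Main.lean`: if `H.cl 1 = 1 ≠ 0` and `q ≠ 0` then
`(q : K) ≠ 0`), or simply `[CharZero K]`, which is assumed here. -/
def S_NIL : Prop := S_LIN.{v, w} → S_STR.{u, v, w} → ∀ (k : Type u) [Field k] (𝒱 : VarClass k)
  (C : TheoryData.{u, v, 0} 𝒱 ℚ) [IsChowProj C] (K : Type w) [Field K] [CharZero K]
  (H : WeilTheoryData.{u, v, w} C K) [IsWeilComm H] (hne : ∀ X : 𝒱.Obj, (1 : C.A X) ≠ 0)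
  (X : 𝒱.Obj) (a : R0 C X) (r : ℕ), toA (a ^ r) ∈ numFam C (X.prod X) X.dim → trL hne X a = 0

end thy

end Pool.Agent.P8H64.OO
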